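import Mathlib

set_option autoImplicit false

namespace Pool.H89.Comm

open Finset

section seq
variable {R : Type*} [CommRing R]

/-- existence of the sequence `g` -/
lemma exists_seq (t : ℕ → R) (ht0 : t 0 = 1) (ht1 : t 1 = 1) (κ : ℕ → R) (J : ℕ) :
    ∃ g : ℕ → R, ∀ j < J,
      (∑ i ∈ range (2*j+1), t (2*j-i) * g i) - g (2*j+1) = t (2*j+1) ∧
      (∑ i ∈ range (2*j+2), t (2*j+1-i) * g i) - g (2*j) - κ j = t (2*j+2) := by
  induction J with
  | zero => exact ⟨fun _ => 0, by simp⟩
  | succ J ih =>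
    obtain ⟨g, hg⟩ := ih
    obtain ⟨b1, hb1⟩ : ∃ b1 : R, b1 = t (2*J+2) + κ J - ∑ i ∈ range (2*J), t (2*J+1-i) * g i :=
      ⟨_, rfl⟩
    obtain ⟨b0, hb0⟩ : ∃ b0 : R, b0 = b1 - (∑ i ∈ range (2*J), t (2*J-i) * g i) + t (2*J+1) :=
      ⟨_, rfl⟩
    obtain ⟨g', hg'⟩ : ∃ g' : ℕ → R,
        g' = fun i => if i < 2*J then g i else if i = 2*J then b0 else b1 := ⟨_, rfl⟩
    have hlow : ∀ i, i < 2*J → g' i = g i := by
      intro i hi
      rw [hg']
      exact if_pos hi
    have h0 : g' (2*J) = b0 := by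
      rw [hg']
      simp
    have h1 : g' (2*J+1) = b1 := by
      rw [hg']
      simp only
      rw [if_neg (by omega), if_neg (by omega)]
    have key : ∀ n, n ≤ 2*J → ∀ c : ℕ → R,
        ∑ i ∈ range n, c i * g' i = ∑ i ∈ range n, c i * g i := by
      intro n hn c
      apply sum_congr rfl
      intro i hi
      have hi' : i < 2*J := by
        have := mem_range.mp hi
        omega
      rw [hlow i hi']
    refine ⟨g', ?_⟩
    intro j hj
    rcases Nat.lt_succ_iff_lt_or_eq.mp hj with h | h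
    · rw [key _ (by omega), key _ (by omega), hlow (2*j+1) (by omega), hlow (2*j) (by omega)]
      exact hg j h
    · subst h
      constructor
      · rw [sum_range_succ, key _ le_rfl, h0, h1, Nat.sub_self, ht0, hb0]
        ring
      · rw [sum_range_succ, sum_range_succ, key _ le_rfl, h0, h1, Nat.sub_self, ht0,
          Nat.add_sub_cancel_left, ht1, hb1]
        ring

end seq

end Pool.H89.Comm
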