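import Mathlib
import Pool.Agent.H89.Comm.Seq

set_option autoImplicit false

namespace Pool.H89.Comm

open Finset Module

variable {R V : Type*} [CommRing R] [AddCommGroup V] [Module R V]

lemma exists_lin {n : ℕ} (b : Basis (Fin n) R V) (X : ℕ → V) (hX : ∀ i : Fin n, X i = b i)
    {W : Type*} [AddCommGroup W] [Module R W] (f : ℕ → W) :
    ∃ S : V →ₗ[R] W, ∀ i, i < n → S (X i) = f i :=
  ⟨b.constr R (fun i => f i), fun i hi => by
    have := hX ⟨i, hi⟩
    simp only at this
    rw [this, Basis.constr_basis]⟩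

/-- If `N` has trace `-1` (matrix form), its characteristic polynomial is monic of degree `n+1`
with next coefficient `1`, and kills `N`. -/
lemma charpoly_facts {n : ℕ} [Nontrivial R] (b : Basis (Fin (n+1)) R V) (N : V →ₗ[R] V)
    (htr : ∑ i, b.repr (N (b i)) i = -1) :
    ∃ t : ℕ → R, t 0 = 1 ∧ t 1 = 1 ∧
      ∀ v : V, ∑ i ∈ range (n+2), t (n+1-i) • (N ^ i) v = 0 := by
  have hfree : Module.Free R V := Module.Free.of_basis b
  have hfin : Module.Finite R V := Module.Finite.of_basis b
  let M := LinearMap.toMatrix b b N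
  have hM : M.trace = -1 := by
    rw [← htr, Matrix.trace]
    apply sum_congr rfl
    intro i _
    simp [M, LinearMap.toMatrix_apply]
  have hdeg : M.charpoly.natDegree = n+1 := by
    rw [Matrix.charpoly_natDegree_eq_dim, Fintype.card_fin]
  have hch : M.charpoly = N.charpoly := LinearMap.charpoly_toMatrix N b
  refine ⟨fun k => M.charpoly.coeff (n+1-k), ?_, ?_, ?_⟩
  · have := Matrix.charpoly_monic M
    rw [Polynomial.Monic, Polynomial.leadingCoeff, hdeg] at this
    simpa using this
  · have := Matrix.trace_eq_neg_charpoly_coeff M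
    rw [hM, Fintype.card_fin] at this
    have h2 : (1 : R) = M.charpoly.coeff (n+1-1) := by
      have := congrArg (fun z => -z) this
      simpa using this
    exact h2.symm
  · intro v
    have h0 : Polynomial.aeval N M.charpoly = 0 := by
      rw [hch]
      exact LinearMap.aeval_self_charpoly N
    rw [Polynomial.aeval_eq_sum_range, hdeg] at h0
    have h1 := congrArg (fun F : Module.End R V => F v) h0
    simp only [LinearMap.sum_apply, LinearMap.smul_apply, LinearMap.zero_apply] at h1
    rw [← h1]
    apply sum_congr rfl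
    intro i hi
    have hi' : i < n + 2 := mem_range.mp hi
    have : n + 1 - (n + 1 - i) = i := by omega
    simp only [this]


theorem core (m : ℕ) (hm : 1 ≤ m) [Nontrivial R] (b : Basis (Fin (2*m+1)) R V) (C : V →ₗ[R] V)
    (hdet : LinearMap.det C = 1)
    (X : ℕ → V) (hX : ∀ i : Fin (2*m+1), X i = b i) (hX' : X (2*m+1) = 0)
    (hC0 : C (X 0) = X 1)
    (hCe : ∀ j, j < m → C (X (2*j+2)) = X (2*j))
    (hCo : ∀ j, j + 1 < m → C (X (2*j+1)) = X (2*j+3)) :
    ∃ A B : V →ₗ[R] V, Function.Surjective A ∧ Function.Surjective B ∧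
      C ∘ₗ B ∘ₗ A = A ∘ₗ B := by
  have hfree : Module.Free R V := Module.Free.of_basis b
  have hfin : Module.Finite R V := Module.Finite.of_basis b
  -- the constant κ
  obtain ⟨κ, hκ⟩ : ∃ κ : R, κ = -1 - b.repr (C (X (2*m-1))) ⟨2*m-2, by omega⟩ := ⟨_, rfl⟩
  -- the shift S
  obtain ⟨S, hS⟩ := exists_lin b X hX
    (fun i => if i = 2*m-2 then X (2*m-1) + κ • X (2*m) else X (i+1))
  have hSn : ∀ i, i < 2*m+1 → i ≠ 2*m-2 → S (X i) = X (i+1) := by
    intro i hi h
    rw [hS i hi]
    exact if_neg h
  have hSs : S (X (2*m-2)) = X (2*m-1) + κ • X (2*m) := by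
    rw [hS _ (by omega)]
    exact if_pos rfl
  -- the basis x
  obtain ⟨x, hx⟩ : ∃ x : ℕ → V, x = fun i => if i = 2*m-1 then X (2*m-1) + κ • X (2*m) else X i :=
    ⟨_, rfl⟩
  have hxn : ∀ i, i ≠ 2*m-1 → x i = X i := by
    intro i h
    rw [hx]
    exact if_neg h
  have hxs : x (2*m-1) = X (2*m-1) + κ • X (2*m) := by
    rw [hx]
    exact if_pos rfl
  have hSx : ∀ i, i < 2*m → S (x i) = x (i+1) := by
    intro i hi
    by_cases h1 : i = 2*m-1
    · subst h1
      rw [hxs, hxn (2*m-1+1) (by omega), map_add, map_smul, hSn (2*m-1) (by omega) (by omega),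
        hSn (2*m) (by omega) (by omega), hX', smul_zero, add_zero]
    · by_cases h2 : i = 2*m-2
      · subst h2
        rw [hxn _ h1, hSs, show 2*m-2+1 = 2*m-1 by omega, hxs]
      · rw [hxn _ h1, hSn i (by omega) h2, hxn (i+1) (by omega)]
  have hSx' : S (x (2*m)) = 0 := by
    rw [hxn _ (by omega), hSn (2*m) (by omega) (by omega), hX']
  -- N
  obtain ⟨N, hN⟩ : ∃ N : V →ₗ[R] V, N = C ∘ₗ S := ⟨_, rfl⟩
  have hNodd : ∀ j, j < m → N (X (2*j+1)) = X (2*j) := by
    intro j hj
    rw [hN, LinearMap.comp_apply, hSn (2*j+1) (by omega) (by omega)]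
    exact hCe j hj
  have hNev : ∀ j, j + 1 < m → N (X (2*j)) = X (2*j+3) := by
    intro j hj
    rw [hN, LinearMap.comp_apply, hSn (2*j) (by omega) (by omega)]
    exact hCo j hj
  have hNs : N (X (2*m-2)) = C (X (2*m-1)) + κ • X (2*m-2) := by
    rw [hN, LinearMap.comp_apply, hSs, map_add, map_smul]
    have := hCe (m-1) (by omega)
    rw [show 2*(m-1)+2 = 2*m by omega, show 2*(m-1) = 2*m-2 by omega] at this
    rw [this]
  have hNl : N (X (2*m)) = 0 := by
    rw [hN, LinearMap.comp_apply, hSn (2*m) (by omega) (by omega), hX', map_zero]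
  have hrepr : ∀ i j : Fin (2*m+1), b.repr (X j) i = if j = i then 1 else 0 := by
    intro i j
    rw [hX, Basis.repr_self, Finsupp.single_apply]
  have hrepr' : ∀ (i : Fin (2*m+1)) (j : ℕ), j < 2*m+1 → j ≠ i → b.repr (X j) i = 0 := by
    intro i j hj hne
    have := hrepr i ⟨j, hj⟩
    rw [if_neg (fun h => hne (congrArg Fin.val h))] at this
    exact this
  have htr : ∑ i, b.repr (N (b i)) i = -1 := by
    rw [Finset.sum_eq_single (⟨2*m-2, by omega⟩ : Fin (2*m+1))]
    · rw [← hX]
      change b.repr (N (X (2*m-2))) _ = -1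
      rw [hNs, map_add, map_smul, Finsupp.add_apply, Finsupp.smul_apply]
      have := hrepr ⟨2*m-2, by omega⟩ ⟨2*m-2, by omega⟩
      rw [if_pos rfl] at this
      simp only at this
      rw [this, hκ]
      simp
    · intro i _ hi
      have hi1 : (i : ℕ) ≠ 2*m-2 := fun h => hi (Fin.ext h)
      have hi2 := i.isLt
      rw [← hX]
      by_cases h1 : (i : ℕ) = 2*m
      · rw [h1, hNl]
        simp
      · rcases Nat.even_or_odd' (i : ℕ) with ⟨j, hj | hj⟩
        · rw [hj, hNev j (by omega)]
          exact hrepr' i _ (by omega) (by omega)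
        · rw [hj, hNodd j (by omega)]
          exact hrepr' i _ (by omega) (by omega)
    · intro h
      exact absurd (mem_univ _) h
  obtain ⟨t, ht0, ht1, hCH⟩ := charpoly_facts b N htr
  -- u
  obtain ⟨u, hu⟩ : ∃ u : ℕ → V, u = fun i => (N ^ i) (X 1) := ⟨_, rfl⟩
  have hu0 : u 0 = X 1 := by
    rw [hu]
    simp
  have hus : ∀ i, u (i+1) = N (u i) := by
    intro i
    rw [hu]
    simp only [pow_succ', Module.End.mul_apply]
  have huX : ∀ j, j < m → u (2*j) = X (2*j+1) ∧ u (2*j+1) = X (2*j) := by
    intro j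
    induction j with
    | zero =>
      intro h
      refine ⟨by simpa using hu0, ?_⟩
      have := hNodd 0 h
      simp only [mul_zero, zero_add] at this ⊢
      rw [← this, ← hu0]
      exact hus 0
    | succ j ih =>
      intro h
      have ih' := ih (by omega)
      have e1 : u (2*(j+1)) = X (2*(j+1)+1) := by
        rw [show 2*(j+1) = 2*j+1+1 by ring, hus, ih'.2, hNev j (by omega)]
      refine ⟨e1, ?_⟩
      rw [hus, e1, hNodd (j+1) h]
  have hu2m : u (2*m) = C (X (2*m-1)) + κ • X (2*m-2) := by
    have h1 := (huX (m-1) (by omega)).2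
    rw [show 2*(m-1)+1 = 2*m-1 by omega, show 2*(m-1) = 2*m-2 by omega] at h1
    rw [show 2*m = 2*m-1+1 by omega, hus, h1, hNs, show 2*m-1+1 = 2*m by omega]
  -- a
  obtain ⟨a, ha⟩ : ∃ a : ℕ → V, a = fun n => ∑ i ∈ range (n+1), t (n-i) • u i := ⟨_, rfl⟩
  have ha' : ∀ n, a n = ∑ i ∈ range (n+1), t (n-i) • u i := by
    intro n
    rw [ha]
  have ha0 : a 0 = X 1 := by
    rw [ha']
    simp [ht0, hu0]
  have haN : ∀ n, N (a n) = a (n+1) - t (n+1) • X 1 := by
    intro n
    rw [ha' (n+1), sum_range_succ', ha' n, map_sum]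
    simp only [Nat.sub_zero, hu0, Nat.add_sub_add_right, add_sub_cancel_right]
    apply sum_congr rfl
    intro i _
    rw [map_smul, hus]
  have halast : a (2*m+1) = 0 := by
    rw [ha', ← hCH (X 1), hu]
  -- g
  obtain ⟨g, hg⟩ := exists_seq t ht0 ht1 (fun j => if j + 1 = m then κ else 0) m
  -- β
  obtain ⟨β, hβ⟩ := exists_lin b X hX (W := R)
    (fun i => if i = 2*m then 1 else if i % 2 = 0 then g (i+1) else g (i-1))
  have hβl : β (X (2*m)) = 1 := by
    rw [hβ _ (by omega)]
    exact if_pos rfl
  have hβe : ∀ j, j < m → β (X (2*j)) = g (2*j+1) := by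
    intro j hj
    rw [hβ _ (by omega), if_neg (by omega), if_pos (by omega)]
  have hβo : ∀ j, j < m → β (X (2*j+1)) = g (2*j) := by
    intro j hj
    rw [hβ _ (by omega), if_neg (by omega), if_neg (by omega), Nat.add_sub_cancel]
  have hβu : ∀ i, i < 2*m → β (u i) = g i := by
    intro i hi
    rcases Nat.even_or_odd' i with ⟨j, hj | hj⟩
    · rw [hj, (huX j (by omega)).1, hβo j (by omega)]
    · rw [hj, (huX j (by omega)).2, hβe j (by omega)]
  have hβa : ∀ n, n < 2*m → β (a n) = ∑ i ∈ range (n+1), t (n-i) * g i := by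
    intro n hn
    rw [ha', map_sum]
    apply sum_congr rfl
    intro i hi
    have hi' := mem_range.mp hi
    rw [map_smul, hβu i (by omega), smul_eq_mul]
  have hβx : ∀ i, i < 2*m → β (a i) = β (x i) + t (i+1) := by
    intro i hi
    rw [hβa i hi]
    rcases Nat.even_or_odd' i with ⟨j, hj | hj⟩
    · subst hj
      have := (hg j (by omega)).1
      rw [hxn _ (by omega), hβe j (by omega), ← this]
      ring
    · subst hj
      have h2 := (hg j (by omega)).2
      by_cases hjm : j + 1 = m
      · rw [if_pos hjm] at h2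
        have e : β (x (2*j+1)) = g (2*j) + κ := by
          have e1 : 2*j+1 = 2*m-1 := by omega
          have e2 : x (2*j+1) = X (2*j+1) + κ • X (2*m) := by
            rw [e1, hxs]
          rw [e2, map_add, map_smul, hβl, hβo j (by omega), smul_eq_mul, mul_one]
        rw [e, show 2*j+1+1 = 2*j+2 by ring, ← h2]
        ring
      · rw [if_neg hjm] at h2
        rw [hxn _ (by omega), hβo j (by omega), show 2*j+1+1 = 2*j+2 by ring, ← h2]
        ring
  -- A
  obtain ⟨A, hA⟩ := exists_lin b X hX (W := V)
    (fun i => if i = 2*m-1 then a (2*m-1) - κ • a (2*m) else a i)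
  have hAn : ∀ i, i < 2*m+1 → i ≠ 2*m-1 → A (X i) = a i := by
    intro i hi h
    rw [hA i hi]
    exact if_neg h
  have hAs : A (X (2*m-1)) = a (2*m-1) - κ • a (2*m) := by
    rw [hA _ (by omega)]
    exact if_pos rfl
  have hAx : ∀ i, i < 2*m+1 → A (x i) = a i := by
    intro i hi
    by_cases h : i = 2*m-1
    · subst h
      rw [hxs, map_add, map_smul, hAs, hAn (2*m) (by omega) (by omega), sub_add_cancel]
    · rw [hxn i h, hAn i hi h]
  -- B
  obtain ⟨B, hB⟩ : ∃ B : V →ₗ[R] V, B = S + β.smulRight (X 0) := ⟨_, rfl⟩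
  have hBv : ∀ v, B v = S v + β v • X 0 := by
    intro v
    rw [hB, LinearMap.add_apply, LinearMap.smulRight_apply]
  -- the two composites
  have hCBA : ∀ i, i < 2*m+1 →
      C (B (A (x i))) = a (i+1) - t (i+1) • X 1 + β (a i) • X 1 := by
    intro i hi
    rw [hAx i hi, hBv, map_add, map_smul, hC0, ← haN i, hN, LinearMap.comp_apply]
  have hAB : ∀ i, i < 2*m → A (B (x i)) = a (i+1) + β (x i) • X 1 := by
    intro i hi
    rw [hBv, hSx i hi, map_add, map_smul, hAx (i+1) (by omega), hAn 0 (by omega) (by omega), ha0]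
  have hABl : A (B (x (2*m))) = X 1 := by
    rw [hBv, hSx', hxn _ (by omega), hβl, zero_add, one_smul, hAn 0 (by omega) (by omega), ha0]
  obtain ⟨μ, hμ⟩ : ∃ μ : R, μ = β (a (2*m)) - t (2*m+1) := ⟨_, rfl⟩
  have hCBAl : C (B (A (x (2*m)))) = μ • X 1 := by
    rw [hCBA _ (by omega), halast, hμ, sub_smul]
    abel
  have hcomm : ∀ i, i < 2*m → C (B (A (x i))) = A (B (x i)) := by
    intro i hi
    rw [hCBA i (by omega), hAB i hi, hβx i hi, add_smul]
    abel
  -- x spans
  have hXx : X (2*m-1) = x (2*m-1) - κ • x (2*m) := by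
    rw [hxs, hxn (2*m) (by omega), add_sub_cancel_right]
  have hext : ∀ F G : V →ₗ[R] V, (∀ i, i < 2*m+1 → F (x i) = G (x i)) → F = G := by
    intro F G h
    apply b.ext
    intro i
    rw [← hX]
    by_cases h1 : (i : ℕ) = 2*m-1
    · rw [h1, hXx, map_sub, map_sub, map_smul, map_smul, h _ (by omega), h _ (by omega)]
    · rw [← hxn _ h1]
      exact h _ i.isLt
  -- φ
  obtain ⟨φ, hφ⟩ := exists_lin b X hX (W := R)
    (fun i => if i = 2*m then 1 else if i = 2*m-1 then -κ else 0)
  have hφl : φ (x (2*m)) = 1 := by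
    rw [hxn _ (by omega), hφ _ (by omega)]
    exact if_pos rfl
  have hφx : ∀ i, i < 2*m → φ (x i) = 0 := by
    intro i hi
    by_cases h : i = 2*m-1
    · subst h
      have := hφl
      rw [hxn _ (by omega)] at this
      have h2 : φ (X (2*m-1)) = -κ := by
        rw [hφ _ (by omega), if_neg (by omega)]
        exact if_pos rfl
      rw [hxs, map_add, map_smul, this, h2]
      simp
    · rw [hxn _ h, hφ _ (by omega), if_neg (by omega), if_neg h]
  have hD : C ∘ₗ B ∘ₗ A = (A ∘ₗ B) ∘ₗ LinearMap.transvection φ ((μ - 1) • X (2*m)) := by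
    apply hext
    intro i hi
    simp only [LinearMap.comp_apply, LinearMap.transvection.apply]
    by_cases h : i = 2*m
    · subst h
      rw [hφl, hCBAl, one_smul, ← hxn (2*m) (by omega), map_add, map_add, map_smul, map_smul,
        hABl, sub_smul, one_smul]
      abel
    · rw [hφx i (by omega), zero_smul, add_zero]
      exact hcomm i (by omega)
  -- surjectivity of A
  have hAsurj : Function.Surjective A := by
    have hua : ∀ n, n < 2*m+1 → u n ∈ LinearMap.range A := by
      intro n
      induction n using Nat.strong_induction_on with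
      | _ n ih =>
        intro hn
        have h1 : a n ∈ LinearMap.range A := ⟨x n, hAx n hn⟩
        rw [ha' n, sum_range_succ, Nat.sub_self, ht0, one_smul] at h1
        have h2 : ∑ i ∈ range n, t (n-i) • u i ∈ LinearMap.range A := by
          apply Submodule.sum_mem
          intro i hi
          have hi' := mem_range.mp hi
          exact Submodule.smul_mem _ _ (ih i hi' (by omega))
        have h3 := Submodule.sub_mem _ h1 h2
        rwa [add_sub_cancel_left] at h3
    have hXA : ∀ i, i < 2*m → X i ∈ LinearMap.range A := by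
      intro i hi
      rcases Nat.even_or_odd' i with ⟨j, hj | hj⟩
      · rw [hj, ← (huX j (by omega)).2]
        exact hua _ (by omega)
      · rw [hj, ← (huX j (by omega)).1]
        exact hua _ (by omega)
    have hWA : C (X (2*m-1)) ∈ LinearMap.range A := by
      have h1 := hua (2*m) (by omega)
      rw [hu2m] at h1
      have h2 := Submodule.sub_mem _ h1 (Submodule.smul_mem _ κ (hXA (2*m-2) (by omega)))
      rwa [add_sub_cancel_right] at h2
    have hCA : ∀ i : Fin (2*m+1), C (b i) ∈ LinearMap.range A := by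
      intro i
      have hi := i.isLt
      rw [← hX]
      by_cases h0 : (i : ℕ) = 0
      · rw [h0, hC0]
        exact hXA 1 (by omega)
      · by_cases h1 : (i : ℕ) = 2*m-1
        · rw [h1]
          exact hWA
        · rcases Nat.even_or_odd' (i : ℕ) with ⟨j, hj | hj⟩
          · have := hCe (j-1) (by omega)
            rw [show 2*(j-1)+2 = 2*j by omega] at this
            rw [hj, this]
            exact hXA _ (by omega)
          · rw [hj, hCo j (by omega)]
            exact hXA _ (by omega)
    have hCA' : LinearMap.range C ≤ LinearMap.range A := by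
      rintro _ ⟨v, rfl⟩
      rw [← b.sum_repr v, map_sum]
      apply Submodule.sum_mem
      intro i _
      rw [map_smul]
      exact Submodule.smul_mem _ _ (hCA i)
    have hCsurj : Function.Surjective C := by
      have : IsUnit (LinearMap.det C) := by
        rw [hdet]
        exact isUnit_one
      exact ((Module.End.isUnit_iff C).mp ((LinearMap.isUnit_iff_isUnit_det C).mpr this)).2
    intro v
    obtain ⟨w, rfl⟩ := hCsurj v
    exact hCA' ⟨w, rfl⟩
  -- surjectivity of B
  have hBsurj : Function.Surjective B := by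
    have h0 : X 0 ∈ LinearMap.range B := by
      refine ⟨x (2*m), ?_⟩
      rw [hBv, hSx', hxn _ (by omega), hβl, zero_add, one_smul]
    have hs : ∀ i, i < 2*m → x (i+1) ∈ LinearMap.range B := by
      intro i hi
      have h1 : B (x i) ∈ LinearMap.range B := ⟨_, rfl⟩
      rw [hBv, hSx i hi] at h1
      have h2 := Submodule.sub_mem _ h1 (Submodule.smul_mem _ (β (x i)) h0)
      rwa [add_sub_cancel_right] at h2
    have hxB : ∀ i, i < 2*m+1 → x i ∈ LinearMap.range B := by
      intro i hi
      rcases Nat.eq_zero_or_pos i with h | h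
      · rw [h, hxn 0 (by omega)]
        exact h0
      · have := hs (i-1) (by omega)
        rwa [show i-1+1 = i by omega] at this
    have hbB : ∀ i : Fin (2*m+1), b i ∈ LinearMap.range B := by
      intro i
      rw [← hX]
      by_cases h1 : (i : ℕ) = 2*m-1
      · rw [h1, hXx]
        exact Submodule.sub_mem _ (hxB _ (by omega)) (Submodule.smul_mem _ _ (hxB _ (by omega)))
      · rw [← hxn _ h1]
        exact hxB _ i.isLt
    intro v
    rw [← b.sum_repr v]
    have : ∑ i, (b.repr v) i • b i ∈ LinearMap.range B := by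
      apply Submodule.sum_mem
      intro i _
      exact Submodule.smul_mem _ _ (hbB i)
    exact this
  have hdetA : IsUnit (LinearMap.det A) :=
    (LinearMap.isUnit_iff_isUnit_det A).mp ((Module.End.isUnit_iff A).mpr
      (OrzechProperty.bijective_of_surjective_endomorphism A hAsurj))
  have hdetB : IsUnit (LinearMap.det B) :=
    (LinearMap.isUnit_iff_isUnit_det B).mp ((Module.End.isUnit_iff B).mpr
      (OrzechProperty.bijective_of_surjective_endomorphism B hBsurj))
  have hμ1 : μ = 1 := by
    have h1 := congrArg LinearMap.det hD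
    rw [LinearMap.det_comp, LinearMap.det_comp, LinearMap.det_comp, LinearMap.det_comp, hdet,
      LinearMap.transvection.det, one_mul, map_smul] at h1
    have h2 : φ (X (2*m)) = 1 := by
      rw [← hxn (2*m) (by omega)]
      exact hφl
    rw [h2, smul_eq_mul, mul_one, add_sub_cancel] at h1
    have hu2 : IsUnit (LinearMap.det A * LinearMap.det B) := hdetA.mul hdetB
    have h3 : (LinearMap.det A * LinearMap.det B) * μ = (LinearMap.det A * LinearMap.det B) * 1 := by
      rw [← h1, mul_one, mul_comm]
    exact hu2.mul_left_cancel h3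
  refine ⟨A, B, hAsurj, hBsurj, ?_⟩
  rw [hD, hμ1]
  simp

end Pool.H89.Comm
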