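import Mathlib
import Pool.Agent.H89.Comm.Core

set_option autoImplicit false

namespace Pool.H89.Comm

open Finset Module

variable {R V : Type*} [CommRing R] [AddCommGroup V] [Module R V]

/-- The even-dimensional version of `core`, dimension `2k+4`. -/
theorem core_even (k : ℕ) (b : Basis (Fin (2*k+4)) R V) (C : V →ₗ[R] V)
    (hdet : LinearMap.det C = 1)
    (X : ℕ → V) (hX : ∀ i : Fin (2*k+4), X i = b i)
    (hC0 : C (X 0) = X 1)
    (hCe : ∀ j, j < k → C (X (2*j+2)) = X (2*j))
    (hCo : ∀ j, j < k → C (X (2*j+1)) = X (2*j+3))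
    (hC2 : C (X (2*k+2)) = X (2*k+3))
    (hC3 : C (X (2*k+3)) = X (2*k)) :
    ∃ A B : V →ₗ[R] V, Function.Surjective A ∧ Function.Surjective B ∧
      C ∘ₗ B ∘ₗ A = A ∘ₗ B := by
  have hfree : Module.Free R V := Module.Free.of_basis b
  have hfin : Module.Finite R V := Module.Finite.of_basis b
  -- coordinates of `W = C X_{2k+1}`
  obtain ⟨W, hW⟩ : ∃ W : V, W = C (X (2*k+1)) := ⟨_, rfl⟩
  obtain ⟨ω, hω⟩ : ∃ ω : ℕ → R, W = ∑ i ∈ range (2*k+4), ω i • X i := by
    refine ⟨fun i => if h : i < 2*k+4 then b.repr W ⟨i, h⟩ else 0, ?_⟩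
    rw [Finset.sum_range]
    conv_lhs => rw [← b.sum_repr W]
    apply sum_congr rfl
    intro i _
    rw [← hX i]
    simp
  have hω' : W = (∑ i ∈ range (2*k), ω i • X i) + ω (2*k) • X (2*k) + ω (2*k+1) • X (2*k+1)
      + ω (2*k+2) • X (2*k+2) + ω (2*k+3) • X (2*k+3) := by
    rw [hω, sum_range_succ, sum_range_succ, sum_range_succ, sum_range_succ]
  -- the constant κ
  obtain ⟨κ, hκ⟩ : ∃ κ : R, κ = -1 - ω (2*k) := ⟨_, rfl⟩
  -- the shift S
  obtain ⟨S, hS⟩ := exists_lin b X hX
    (fun i => if i = 2*k then X (2*k+1) + X (2*k+2) + κ • X (2*k+3)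
      else if i = 2*k+1 then X (2*k+2) - X (2*k+3)
      else if i = 2*k+3 then 0 else X (i+1))
  have hSn : ∀ i, i < 2*k → S (X i) = X (i+1) := by
    intro i hi
    rw [hS i (by omega), if_neg (by omega), if_neg (by omega), if_neg (by omega)]
  have hS0 : S (X (2*k)) = X (2*k+1) + X (2*k+2) + κ • X (2*k+3) := by
    rw [hS _ (by omega)]
    exact if_pos rfl
  have hS1 : S (X (2*k+1)) = X (2*k+2) - X (2*k+3) := by
    rw [hS _ (by omega), if_neg (by omega)]
    exact if_pos rfl
  have hS2 : S (X (2*k+2)) = X (2*k+3) := by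
    rw [hS _ (by omega), if_neg (by omega), if_neg (by omega), if_neg (by omega)]
  have hS3 : S (X (2*k+3)) = 0 := by
    rw [hS _ (by omega), if_neg (by omega), if_neg (by omega)]
    exact if_pos rfl
  -- the basis x
  obtain ⟨x, hx⟩ : ∃ x : ℕ → V, x = fun i => if i = 2*k+1 then
      X (2*k+1) + X (2*k+2) + κ • X (2*k+3) else X i := ⟨_, rfl⟩
  have hxn : ∀ i, i ≠ 2*k+1 → x i = X i := by
    intro i h
    rw [hx]
    exact if_neg h
  have hxs : x (2*k+1) = X (2*k+1) + X (2*k+2) + κ • X (2*k+3) := by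
    rw [hx]
    exact if_pos rfl
  have hSx : ∀ i, i < 2*k+3 → S (x i) = x (i+1) := by
    intro i hi
    by_cases h1 : i < 2*k
    · rw [hxn _ (by omega), hxn _ (by omega), hSn i h1]
    · by_cases h2 : i = 2*k
      · subst h2
        rw [hxn _ (by omega), hS0, hxs]
      · by_cases h3 : i = 2*k+1
        · subst h3
          rw [hxs, hxn (2*k+1+1) (by omega), map_add, map_add, map_smul, hS1, hS2, hS3, smul_zero,
            add_zero, sub_add_cancel]
        · have h4 : i = 2*k+2 := by omega
          subst h4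
          rw [hxn _ (by omega), hxn _ (by omega), hS2]
  have hSx' : S (x (2*k+3)) = 0 := by
    rw [hxn _ (by omega), hS3]
  -- N
  obtain ⟨N, hN⟩ : ∃ N : V →ₗ[R] V, N = C ∘ₗ S := ⟨_, rfl⟩
  have hNodd : ∀ j, j < k → N (X (2*j+1)) = X (2*j) := by
    intro j hj
    rw [hN, LinearMap.comp_apply, hSn (2*j+1) (by omega)]
    exact hCe j hj
  have hNev : ∀ j, j < k → N (X (2*j)) = X (2*j+3) := by
    intro j hj
    rw [hN, LinearMap.comp_apply, hSn (2*j) (by omega)]
    exact hCo j hj
  have hN0 : N (X (2*k)) = W + X (2*k+3) + κ • X (2*k) := by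
    rw [hN, LinearMap.comp_apply, hS0, map_add, map_add, map_smul, hC2, hC3, hW]
  have hN1 : N (X (2*k+1)) = X (2*k+3) - X (2*k) := by
    rw [hN, LinearMap.comp_apply, hS1, map_sub, hC2, hC3]
  have hN2 : N (X (2*k+2)) = X (2*k) := by
    rw [hN, LinearMap.comp_apply, hS2, hC3]
  have hN3 : N (X (2*k+3)) = 0 := by
    rw [hN, LinearMap.comp_apply, hS3, map_zero]
  -- u
  obtain ⟨u, hu⟩ : ∃ u : ℕ → V, u = fun i => (N ^ i) (X 1) := ⟨_, rfl⟩
  have hu0 : u 0 = X 1 := by
    rw [hu]
    simp
  have hus : ∀ i, u (i+1) = N (u i) := by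
    intro i
    rw [hu]
    simp only [pow_succ', Module.End.mul_apply]
  have huE : ∀ j, j ≤ k → u (2*j) = X (2*j+1) := by
    intro j
    induction j with
    | zero =>
      intro _
      simpa using hu0
    | succ j ih =>
      intro h
      rw [show 2*(j+1) = 2*j+1+1 by ring, hus, hus, ih (by omega), hNodd j (by omega),
        hNev j (by omega)]
  have huO : ∀ j, j < k → u (2*j+1) = X (2*j) := by
    intro j hj
    rw [hus, huE j (by omega), hNodd j hj]
  have hu1 : u (2*k+1) = X (2*k+3) - X (2*k) := by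
    rw [hus, huE k le_rfl, hN1]
  have hu2 : u (2*k+2) = - (W + X (2*k+3) + κ • X (2*k)) := by
    rw [hus, hu1, map_sub, hN3, hN0, zero_sub]
  -- explicit recursion for u_{2k+3}
  obtain ⟨τ, hτ⟩ : ∃ τ : ℕ → R, τ = fun i => if i % 2 = 0 then (if i = 0 then 0 else ω (i-2))
      else ω i := ⟨_, rfl⟩
  have hτsum : ∀ j, j ≤ k → ∑ i ∈ range (2*j), ω i • N (X i) = ∑ i ∈ range (2*j+1), τ i • u i := by
    intro j
    induction j with
    | zero =>
      intro _
      simp [hτ]
    | succ j ih =>
      intro h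
      have e1 : τ (2*j+1) = ω (2*j+1) := by
        rw [hτ]
        exact if_neg (by omega)
      have e2 : τ (2*j+2) = ω (2*j) := by
        rw [hτ]
        simp only
        rw [if_pos (by omega), if_neg (by omega), Nat.add_sub_cancel]
      have e3 : u (2*j+2) = X (2*j+3) := by
        have := huE (j+1) (by omega)
        rwa [show 2*(j+1) = 2*j+2 by ring] at this
      rw [show 2*(j+1) = 2*j+1+1 by ring, sum_range_succ, sum_range_succ, ih (by omega),
        sum_range_succ (fun i => τ i • u i) (2*j+1+1), sum_range_succ (fun i => τ i • u i) (2*j+1),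
        hNodd j (by omega), hNev j (by omega), e1, show 2*j+1+1 = 2*j+2 by ring, e2, e3,
        huO j (by omega)]
      abel
  have hu3 : u (2*k+3) = - u (2*k+2) - (ω (2*k+1) - ω (2*k+2)) • u (2*k+1)
      - ω (2*k+2) • X (2*k+3) - ∑ i ∈ range (2*k+1), τ i • u i := by
    have hNX0 : N (X (2*k)) = - u (2*k+2) := by
      rw [hN0, hu2, neg_neg]
    have hNX1 : N (X (2*k+1)) = u (2*k+1) := by
      rw [hN1, hu1]
    have hX2k : X (2*k) = X (2*k+3) - u (2*k+1) := by
      rw [hu1]
      abel
    have hNW : N W = (∑ i ∈ range (2*k+1), τ i • u i) - ω (2*k) • u (2*k+2)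
        + ω (2*k+1) • u (2*k+1) + ω (2*k+2) • (X (2*k+3) - u (2*k+1)) := by
      rw [hω', map_add, map_add, map_add, map_add, map_sum, map_smul, map_smul, map_smul,
        map_smul, hN3, hN2, hNX0, hNX1, ← hX2k, ← hτsum k le_rfl]
      simp only [map_smul, smul_zero, smul_neg]
      abel
    rw [hus, hu2, map_neg, map_add, map_add, hN3, map_smul, hNX0, hNW, ← hu2, hκ]
    module
  -- t
  obtain ⟨t, ht⟩ : ∃ t : ℕ → R, t = fun j => if j = 0 then 1 else if j = 1 then 1
      else if j = 2 then ω (2*k+1) - ω (2*k+2) else if j ≤ 2*k+3 then τ (2*k+3-j) else 0 := ⟨_, rfl⟩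
  have ht0 : t 0 = 1 := by rw [ht]; rfl
  have ht1 : t 1 = 1 := by rw [ht]; rfl
  have ht2 : t 2 = ω (2*k+1) - ω (2*k+2) := by rw [ht]; rfl
  have htτ : ∀ i, i < 2*k+1 → t (2*k+3-i) = τ i := by
    intro i hi
    rw [ht]
    simp only
    rw [if_neg (by omega), if_neg (by omega), if_neg (by omega), if_pos (by omega)]
    congr 1
    omega
  have htl : t (2*k+4) = 0 := by
    rw [ht]
    simp only
    rw [if_neg (by omega), if_neg (by omega), if_neg (by omega), if_neg (by omega)]
  -- a
  obtain ⟨a, ha⟩ : ∃ a : ℕ → V, a = fun n => ∑ i ∈ range (n+1), t (n-i) • u i := ⟨_, rfl⟩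
  have ha' : ∀ n, a n = ∑ i ∈ range (n+1), t (n-i) • u i := by
    intro n
    rw [ha]
  have ha0 : a 0 = X 1 := by
    rw [ha']
    simp [ht0, hu0]
  have haN : ∀ n, N (a n) = a (n+1) - t (n+1) • X 1 := by
    intro n
    rw [ha' (n+1), sum_range_succ', ha' n, map_sum]
    simp only [Nat.sub_zero, hu0, Nat.add_sub_add_right, add_sub_cancel_right]
    apply sum_congr rfl
    intro i _
    rw [map_smul, hus]
  have ha3 : a (2*k+3) = - (ω (2*k+2) • X (2*k+3)) := by
    rw [ha', sum_range_succ, sum_range_succ, sum_range_succ, Nat.sub_self, ht0,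
      show 2*k+3-(2*k+1+1) = 1 by omega, show 2*k+3-(2*k+1) = 2 by omega, ht1, ht2,
      sum_congr rfl (fun i hi => by rw [htτ i (mem_range.mp hi)] :
        ∀ i ∈ range (2*k+1), t (2*k+3-i) • u i = τ i • u i), hu3,
      show 2*k+1+1 = 2*k+2 by ring]
    module
  have halast : a (2*k+4) = 0 := by
    have := haN (2*k+3)
    rw [ha3, map_neg, map_smul, hN3, smul_zero, neg_zero, show 2*k+3+1 = 2*k+4 by ring, htl,
      zero_smul, sub_zero] at this
    exact this.symm
  -- g
  obtain ⟨g, hg⟩ := exists_seq t ht0 ht1 (fun _ => 0) k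
  -- β
  obtain ⟨β, hβe, hβo, hβ3, hβ2, hβ1, hβ0⟩ : ∃ β : V →ₗ[R] R,
      (∀ j, j < k → β (X (2*j)) = g (2*j+1)) ∧ (∀ j, j < k → β (X (2*j+1)) = g (2*j)) ∧
      β (X (2*k+3)) = 1 ∧
      (β (a (2*k+2)) = β (X (2*k+2)) + t (2*k+3)) ∧
      (β (a (2*k+1)) = β (x (2*k+1)) + t (2*k+2)) ∧
      (β (a (2*k)) = β (X (2*k)) + t (2*k+1)) := by
    obtain ⟨r0, hr0⟩ : ∃ r0 : R, r0 = t (2*k+1) - ∑ i ∈ range (2*k), t (2*k-i) * g i := ⟨_, rfl⟩
    obtain ⟨r1, hr1⟩ : ∃ r1 : R, r1 = (∑ i ∈ range (2*k), t (2*k+1-i) * g i) + 1 - κ - t (2*k+2) :=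
      ⟨_, rfl⟩
    obtain ⟨r2, hr2⟩ : ∃ r2 : R, r2 = t (2*k+3) + ω (2*k+3)
      + (∑ i ∈ range (2*k), ω i * (if i % 2 = 0 then g (i+1) else g (i-1)))
      - ∑ i ∈ range (2*k), t (2*k+2-i) * g i := ⟨_, rfl⟩
    obtain ⟨b1, hb1⟩ : ∃ b1 : R, b1 = r2 + (ω (2*k+2) + 1) * (r0 + r1) := ⟨_, rfl⟩
    obtain ⟨b0, hb0⟩ : ∃ b0 : R, b0 = b1 - r0 := ⟨_, rfl⟩
    obtain ⟨b2, hb2⟩ : ∃ b2 : R, b2 = r1 - b0 := ⟨_, rfl⟩
    obtain ⟨β, hβ⟩ := exists_lin b X hX (W := R)
      (fun i => if i = 2*k then b0 else if i = 2*k+1 then b1 else if i = 2*k+2 then b2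
        else if i = 2*k+3 then 1 else if i % 2 = 0 then g (i+1) else g (i-1))
    have hβX0 : β (X (2*k)) = b0 := by
      rw [hβ _ (by omega)]
      exact if_pos rfl
    have hβX1 : β (X (2*k+1)) = b1 := by
      rw [hβ _ (by omega), if_neg (by omega)]
      exact if_pos rfl
    have hβX2 : β (X (2*k+2)) = b2 := by
      rw [hβ _ (by omega), if_neg (by omega), if_neg (by omega)]
      exact if_pos rfl
    have hβX3 : β (X (2*k+3)) = 1 := by
      rw [hβ _ (by omega), if_neg (by omega), if_neg (by omega), if_neg (by omega)]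
      exact if_pos rfl
    have hβlow : ∀ i, i < 2*k → β (X i) = if i % 2 = 0 then g (i+1) else g (i-1) := by
      intro i hi
      rw [hβ _ (by omega), if_neg (by omega), if_neg (by omega), if_neg (by omega),
        if_neg (by omega)]
    have hβe : ∀ j, j < k → β (X (2*j)) = g (2*j+1) := by
      intro j hj
      rw [hβlow _ (by omega), if_pos (by omega)]
    have hβo : ∀ j, j < k → β (X (2*j+1)) = g (2*j) := by
      intro j hj
      rw [hβlow _ (by omega), if_neg (by omega), Nat.add_sub_cancel]
    have hβu : ∀ i, i < 2*k → β (u i) = g i := by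
      intro i hi
      rcases Nat.even_or_odd' i with ⟨j, hj | hj⟩
      · rw [hj, huE j (by omega), hβo j (by omega)]
      · rw [hj, huO j (by omega), hβe j (by omega)]
    have hsum : ∀ c : ℕ → R, β (∑ i ∈ range (2*k), c i • u i) = ∑ i ∈ range (2*k), c i * g i := by
      intro c
      rw [map_sum]
      apply sum_congr rfl
      intro i hi
      rw [map_smul, hβu i (mem_range.mp hi), smul_eq_mul]
    have hβW : β W = (∑ i ∈ range (2*k), ω i * (if i % 2 = 0 then g (i+1) else g (i-1)))
        + ω (2*k) * b0 + ω (2*k+1) * b1 + ω (2*k+2) * b2 + ω (2*k+3) := by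
      rw [hω', map_add, map_add, map_add, map_add, map_smul, map_smul, map_smul, map_smul, hβX0,
        hβX1, hβX2, hβX3, map_sum]
      have : ∑ i ∈ range (2*k), β (ω i • X i)
          = ∑ i ∈ range (2*k), ω i * (if i % 2 = 0 then g (i+1) else g (i-1)) := by
        apply sum_congr rfl
        intro i hi
        rw [map_smul, hβlow i (mem_range.mp hi), smul_eq_mul]
      rw [this]
      simp only [smul_eq_mul, mul_one]
    refine ⟨β, hβe, hβo, hβX3, ?_, ?_, ?_⟩
    · rw [ha', sum_range_succ, sum_range_succ, sum_range_succ, Nat.sub_self, ht0,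
        show 2*k+2-(2*k+1) = 1 by omega, show 2*k+2-2*k = 2 by omega, ht1, ht2, map_add, map_add,
        map_add, hsum (fun i => t (2*k+2-i)), map_smul, map_smul, map_smul, huE k le_rfl, hu1, hu2,
        map_neg, map_add, map_add, map_smul, map_sub, hβX0, hβX1, hβX2, hβX3, hβW]
      simp only [smul_eq_mul]
      rw [hb2, hb0, hb1, hr2, hκ]
      ring
    · rw [ha', sum_range_succ, sum_range_succ, Nat.sub_self, ht0,
        show 2*k+1-2*k = 1 by omega, ht1, map_add, map_add,
        hsum (fun i => t (2*k+1-i)), map_smul, map_smul, huE k le_rfl, hu1, hxs,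
        map_add, map_add, map_smul, map_sub, hβX0, hβX1, hβX2, hβX3]
      simp only [smul_eq_mul]
      rw [hb2, hr1]
      ring
    · rw [ha', sum_range_succ, Nat.sub_self, ht0, map_add,
        hsum (fun i => t (2*k-i)), map_smul, huE k le_rfl, hβX0, hβX1]
      simp only [smul_eq_mul]
      rw [hb0, hr0]
      ring
  have hβu : ∀ i, i < 2*k → β (u i) = g i := by
    intro i hi
    rcases Nat.even_or_odd' i with ⟨j, hj | hj⟩
    · rw [hj, huE j (by omega), hβo j (by omega)]
    · rw [hj, huO j (by omega), hβe j (by omega)]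
  have hβa : ∀ n, n < 2*k → β (a n) = ∑ i ∈ range (n+1), t (n-i) * g i := by
    intro n hn
    rw [ha', map_sum]
    apply sum_congr rfl
    intro i hi
    have hi' := mem_range.mp hi
    rw [map_smul, hβu i (by omega), smul_eq_mul]
  have hβx : ∀ i, i < 2*k+3 → β (a i) = β (x i) + t (i+1) := by
    intro i hi
    by_cases hlow : i < 2*k
    · rw [hβa i hlow]
      rcases Nat.even_or_odd' i with ⟨j, hj | hj⟩
      · subst hj
        have := (hg j (by omega)).1
        rw [hxn _ (by omega), hβe j (by omega), ← this]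
        ring
      · subst hj
        have h2 := (hg j (by omega)).2
        rw [hxn _ (by omega), hβo j (by omega), show 2*j+1+1 = 2*j+2 by ring, ← h2]
        ring
    · by_cases h0 : i = 2*k
      · subst h0
        rw [hβ0, hxn _ (by omega)]
      · by_cases h1 : i = 2*k+1
        · subst h1
          rw [hβ1]
        · have h2 : i = 2*k+2 := by omega
          subst h2
          rw [hβ2, hxn _ (by omega)]
  -- A
  obtain ⟨A, hA⟩ := exists_lin b X hX (W := V)
    (fun i => if i = 2*k+1 then a (2*k+1) - a (2*k+2) - κ • a (2*k+3) else a i)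
  have hAn : ∀ i, i < 2*k+4 → i ≠ 2*k+1 → A (X i) = a i := by
    intro i hi h
    rw [hA i hi]
    exact if_neg h
  have hAs : A (X (2*k+1)) = a (2*k+1) - a (2*k+2) - κ • a (2*k+3) := by
    rw [hA _ (by omega)]
    exact if_pos rfl
  have hAx : ∀ i, i < 2*k+4 → A (x i) = a i := by
    intro i hi
    by_cases h : i = 2*k+1
    · subst h
      rw [hxs, map_add, map_add, map_smul, hAs, hAn (2*k+2) (by omega) (by omega),
        hAn (2*k+3) (by omega) (by omega)]
      abel
    · rw [hxn i h, hAn i hi h]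
  -- B
  obtain ⟨B, hB⟩ : ∃ B : V →ₗ[R] V, B = S + β.smulRight (X 0) := ⟨_, rfl⟩
  have hBv : ∀ v, B v = S v + β v • X 0 := by
    intro v
    rw [hB, LinearMap.add_apply, LinearMap.smulRight_apply]
  -- the two composites
  have hCBA : ∀ i, i < 2*k+4 →
      C (B (A (x i))) = a (i+1) - t (i+1) • X 1 + β (a i) • X 1 := by
    intro i hi
    rw [hAx i hi, hBv, map_add, map_smul, hC0, ← haN i, hN, LinearMap.comp_apply]
  have hAB : ∀ i, i < 2*k+3 → A (B (x i)) = a (i+1) + β (x i) • X 1 := by
    intro i hi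
    rw [hBv, hSx i hi, map_add, map_smul, hAx (i+1) (by omega), hAn 0 (by omega) (by omega), ha0]
  have hABl : A (B (x (2*k+3))) = X 1 := by
    rw [hBv, hSx', hxn _ (by omega), hβ3, zero_add, one_smul, hAn 0 (by omega) (by omega), ha0]
  obtain ⟨μ, hμ⟩ : ∃ μ : R, μ = β (a (2*k+3)) - t (2*k+4) := ⟨_, rfl⟩
  have hCBAl : C (B (A (x (2*k+3)))) = μ • X 1 := by
    rw [hCBA _ (by omega), show 2*k+3+1 = 2*k+4 by ring, halast, hμ, sub_smul]
    abel
  have hcomm : ∀ i, i < 2*k+3 → C (B (A (x i))) = A (B (x i)) := by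
    intro i hi
    rw [hCBA i (by omega), hAB i hi, hβx i hi, add_smul]
    abel
  -- x spans
  have hXx : X (2*k+1) = x (2*k+1) - x (2*k+2) - κ • x (2*k+3) := by
    rw [hxs, hxn (2*k+2) (by omega), hxn (2*k+3) (by omega)]
    abel
  have hext : ∀ F G : V →ₗ[R] V, (∀ i, i < 2*k+4 → F (x i) = G (x i)) → F = G := by
    intro F G h
    apply b.ext
    intro i
    rw [← hX]
    by_cases h1 : (i : ℕ) = 2*k+1
    · rw [h1, hXx, map_sub, map_sub, map_sub, map_sub, map_smul, map_smul, h _ (by omega),
        h _ (by omega), h _ (by omega)]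
    · rw [← hxn _ h1]
      exact h _ i.isLt
  -- φ
  obtain ⟨φ, hφ⟩ := exists_lin b X hX (W := R)
    (fun i => if i = 2*k+3 then 1 else if i = 2*k+1 then -κ else 0)
  have hφl : φ (x (2*k+3)) = 1 := by
    rw [hxn _ (by omega), hφ _ (by omega)]
    exact if_pos rfl
  have hφx : ∀ i, i < 2*k+3 → φ (x i) = 0 := by
    intro i hi
    by_cases h : i = 2*k+1
    · subst h
      have := hφl
      rw [hxn _ (by omega)] at this
      have h2 : φ (X (2*k+1)) = -κ := by
        rw [hφ _ (by omega), if_neg (by omega)]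
        exact if_pos rfl
      have h3 : φ (X (2*k+2)) = 0 := by
        rw [hφ _ (by omega), if_neg (by omega), if_neg (by omega)]
      rw [hxs, map_add, map_add, map_smul, this, h2, h3]
      simp
    · rw [hxn _ h, hφ _ (by omega), if_neg (by omega), if_neg h]
  have hD : C ∘ₗ B ∘ₗ A = (A ∘ₗ B) ∘ₗ LinearMap.transvection φ ((μ - 1) • X (2*k+3)) := by
    apply hext
    intro i hi
    simp only [LinearMap.comp_apply, LinearMap.transvection.apply]
    by_cases h : i = 2*k+3
    · subst h
      rw [hφl, hCBAl, one_smul, ← hxn (2*k+3) (by omega), map_add, map_add, map_smul, map_smul,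
        hABl, sub_smul, one_smul]
      abel
    · rw [hφx i (by omega), zero_smul, add_zero]
      exact hcomm i (by omega)
  -- C surjective
  have hCsurj : Function.Surjective C := by
    have : IsUnit (LinearMap.det C) := by
      rw [hdet]
      exact isUnit_one
    exact ((Module.End.isUnit_iff C).mp ((LinearMap.isUnit_iff_isUnit_det C).mpr this)).2
  -- the coefficient `ω (2k+2)` is a unit
  have hωu : IsUnit (ω (2*k+2)) := by
    obtain ⟨ξ, hξ⟩ := exists_lin b X hX (W := R) (fun i => if i = 2*k+2 then 1 else 0)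
    have hξn : ∀ i, i < 2*k+4 → i ≠ 2*k+2 → ξ (X i) = 0 := by
      intro i hi h
      rw [hξ i hi]
      exact if_neg h
    have hξs : ξ (X (2*k+2)) = 1 := by
      rw [hξ _ (by omega)]
      exact if_pos rfl
    have hξW : ξ W = ω (2*k+2) := by
      rw [hω, map_sum, Finset.sum_eq_single (2*k+2)]
      · rw [map_smul, hξs, smul_eq_mul, mul_one]
      · intro i hi hne
        rw [map_smul, hξn i (mem_range.mp hi) hne, smul_zero]
      · intro h
        exact absurd (mem_range.mpr (by omega)) h
    obtain ⟨v, hv⟩ := hCsurj (X (2*k+2))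
    have h1 : ξ (C v) = b.repr v ⟨2*k+1, by omega⟩ * ω (2*k+2) := by
      conv_lhs => rw [← b.sum_repr v]
      rw [map_sum, map_sum, Finset.sum_eq_single (⟨2*k+1, by omega⟩ : Fin (2*k+4))]
      · rw [map_smul, map_smul, ← hX, ← hξW, hW, smul_eq_mul]
      · intro i _ hne
        have hne' : (i : ℕ) ≠ 2*k+1 := fun h => hne (Fin.ext h)
        have hi := i.isLt
        rw [map_smul, map_smul, ← hX]
        have h0 : ξ (C (X i)) = 0 := by
          by_cases h3 : (i : ℕ) = 2*k+3
          · rw [h3, hC3]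
            exact hξn _ (by omega) (by omega)
          · by_cases h2 : (i : ℕ) = 2*k+2
            · rw [h2, hC2]
              exact hξn _ (by omega) (by omega)
            · by_cases h0 : (i : ℕ) = 0
              · rw [h0, hC0]
                exact hξn _ (by omega) (by omega)
              · rcases Nat.even_or_odd' (i : ℕ) with ⟨j, hj | hj⟩
                · have := hCe (j-1) (by omega)
                  rw [show 2*(j-1)+2 = 2*j by omega] at this
                  rw [hj, this]
                  exact hξn _ (by omega) (by omega)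
                · rw [hj, hCo j (by omega)]
                  exact hξn _ (by omega) (by omega)
        rw [h0, smul_zero]
      · intro h
        exact absurd (mem_univ _) h
    rw [hv, hξs] at h1
    exact IsUnit.of_mul_eq_one _ (by rw [mul_comm]; exact h1.symm)
  -- surjectivity of A
  have hAsurj : Function.Surjective A := by
    have haA : ∀ n, n < 2*k+4 → a n ∈ LinearMap.range A := fun n hn => ⟨x n, hAx n hn⟩
    have hua : ∀ n, n < 2*k+4 → u n ∈ LinearMap.range A := by
      intro n
      induction n using Nat.strong_induction_on with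
      | _ n ih =>
        intro hn
        have h1 : a n ∈ LinearMap.range A := haA n hn
        rw [ha' n, sum_range_succ, Nat.sub_self, ht0, one_smul] at h1
        have h2 : ∑ i ∈ range n, t (n-i) • u i ∈ LinearMap.range A := by
          apply Submodule.sum_mem
          intro i hi
          have hi' := mem_range.mp hi
          exact Submodule.smul_mem _ _ (ih i hi' (by omega))
        have h3 := Submodule.sub_mem _ h1 h2
        rwa [add_sub_cancel_left] at h3
    have hX3A : X (2*k+3) ∈ LinearMap.range A := by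
      obtain ⟨w, hw⟩ := hωu
      have h1 := haA (2*k+3) (by omega)
      rw [ha3, ← hw] at h1
      have h2 := Submodule.smul_mem _ (-((w⁻¹ : Rˣ) : R)) h1
      rw [smul_neg, neg_smul, neg_neg, smul_smul, Units.inv_mul, one_smul] at h2
      exact h2
    have hX0A : X (2*k) ∈ LinearMap.range A := by
      have h1 := Submodule.sub_mem _ hX3A (hua (2*k+1) (by omega))
      rw [hu1, sub_sub_cancel] at h1
      exact h1
    have hXA : ∀ i, i < 2*k+4 → i ≠ 2*k+2 → X i ∈ LinearMap.range A := by
      intro i hi hne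
      by_cases h3 : i = 2*k+3
      · rw [h3]
        exact hX3A
      · by_cases h0 : i = 2*k
        · rw [h0]
          exact hX0A
        · rcases Nat.even_or_odd' i with ⟨j, hj | hj⟩
          · rw [hj, ← huO j (by omega)]
            exact hua _ (by omega)
          · rw [hj, ← huE j (by omega)]
            exact hua _ (by omega)
    have hWA : W ∈ LinearMap.range A := by
      have h1 := hua (2*k+2) (by omega)
      rw [hu2] at h1
      have h2 := Submodule.neg_mem _ h1
      rw [neg_neg] at h2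
      have h3 := Submodule.sub_mem _ (Submodule.sub_mem _ h2 (Submodule.smul_mem _ κ hX0A)) hX3A
      have e : W + X (2*k+3) + κ • X (2*k) - κ • X (2*k) - X (2*k+3) = W := by abel
      rwa [e] at h3
    have hCA : ∀ i : Fin (2*k+4), C (b i) ∈ LinearMap.range A := by
      intro i
      have hi := i.isLt
      rw [← hX]
      by_cases h3 : (i : ℕ) = 2*k+3
      · rw [h3, hC3]
        exact hX0A
      · by_cases h2 : (i : ℕ) = 2*k+2
        · rw [h2, hC2]
          exact hX3A
        · by_cases h0 : (i : ℕ) = 0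
          · rw [h0, hC0]
            exact hXA 1 (by omega) (by omega)
          · by_cases h1 : (i : ℕ) = 2*k+1
            · rw [h1, ← hW]
              exact hWA
            · rcases Nat.even_or_odd' (i : ℕ) with ⟨j, hj | hj⟩
              · have := hCe (j-1) (by omega)
                rw [show 2*(j-1)+2 = 2*j by omega] at this
                rw [hj, this]
                exact hXA _ (by omega) (by omega)
              · rw [hj, hCo j (by omega)]
                exact hXA _ (by omega) (by omega)
    have hCA' : LinearMap.range C ≤ LinearMap.range A := by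
      rintro _ ⟨v, rfl⟩
      rw [← b.sum_repr v, map_sum]
      apply Submodule.sum_mem
      intro i _
      rw [map_smul]
      exact Submodule.smul_mem _ _ (hCA i)
    intro v
    obtain ⟨w, rfl⟩ := hCsurj v
    exact hCA' ⟨w, rfl⟩
  -- surjectivity of B
  have hBsurj : Function.Surjective B := by
    have h0 : X 0 ∈ LinearMap.range B := by
      refine ⟨x (2*k+3), ?_⟩
      rw [hBv, hSx', hxn _ (by omega), hβ3, zero_add, one_smul]
    have hs : ∀ i, i < 2*k+3 → x (i+1) ∈ LinearMap.range B := by
      intro i hi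
      have h1 : B (x i) ∈ LinearMap.range B := ⟨_, rfl⟩
      rw [hBv, hSx i hi] at h1
      have h2 := Submodule.sub_mem _ h1 (Submodule.smul_mem _ (β (x i)) h0)
      rwa [add_sub_cancel_right] at h2
    have hxB : ∀ i, i < 2*k+4 → x i ∈ LinearMap.range B := by
      intro i hi
      rcases Nat.eq_zero_or_pos i with h | h
      · rw [h, hxn 0 (by omega)]
        exact h0
      · have := hs (i-1) (by omega)
        rwa [show i-1+1 = i by omega] at this
    have hbB : ∀ i : Fin (2*k+4), b i ∈ LinearMap.range B := by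
      intro i
      rw [← hX]
      by_cases h1 : (i : ℕ) = 2*k+1
      · rw [h1, hXx]
        exact Submodule.sub_mem _ (Submodule.sub_mem _ (hxB _ (by omega)) (hxB _ (by omega)))
          (Submodule.smul_mem _ _ (hxB _ (by omega)))
      · rw [← hxn _ h1]
        exact hxB _ i.isLt
    intro v
    rw [← b.sum_repr v]
    have : ∑ i, (b.repr v) i • b i ∈ LinearMap.range B := by
      apply Submodule.sum_mem
      intro i _
      exact Submodule.smul_mem _ _ (hbB i)
    exact this
  have hdetA : IsUnit (LinearMap.det A) :=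
    (LinearMap.isUnit_iff_isUnit_det A).mp ((Module.End.isUnit_iff A).mpr
      (OrzechProperty.bijective_of_surjective_endomorphism A hAsurj))
  have hdetB : IsUnit (LinearMap.det B) :=
    (LinearMap.isUnit_iff_isUnit_det B).mp ((Module.End.isUnit_iff B).mpr
      (OrzechProperty.bijective_of_surjective_endomorphism B hBsurj))
  have hμ1 : μ = 1 := by
    have h1 := congrArg LinearMap.det hD
    rw [LinearMap.det_comp, LinearMap.det_comp, LinearMap.det_comp, LinearMap.det_comp, hdet,
      LinearMap.transvection.det, one_mul, map_smul] at h1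
    have h2 : φ (X (2*k+3)) = 1 := by
      rw [← hxn (2*k+3) (by omega)]
      exact hφl
    rw [h2, smul_eq_mul, mul_one, add_sub_cancel] at h1
    have hu2 : IsUnit (LinearMap.det A * LinearMap.det B) := hdetA.mul hdetB
    have h3 : (LinearMap.det A * LinearMap.det B) * μ = (LinearMap.det A * LinearMap.det B) * 1 := by
      rw [← h1, mul_one, mul_comm]
    exact hu2.mul_left_cancel h3
  refine ⟨A, B, hAsurj, hBsurj, ?_⟩
  rw [hD, hμ1]
  simp

end Pool.H89.Comm
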