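import Mathlib
import Pool.Agent.H89.Comm.Core
import Pool.Agent.H89.Comm.Even

set_option autoImplicit false

namespace Pool.H89.Comm

open Finset Module Matrix

variable {R : Type*} [CommRing R]

/-- From linear maps to matrices. -/
lemma units_of_maps {n : ℕ} (C : Matrix (Fin n) (Fin n) R)
    (A B : (Fin n → R) →ₗ[R] (Fin n → R)) (hA : Function.Surjective A)
    (hB : Function.Surjective B) (h : Matrix.toLin' C ∘ₗ B ∘ₗ A = A ∘ₗ B) :
    ∃ A B : (Matrix (Fin n) (Fin n) R)ˣ,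
      ((A * B * A⁻¹ * B⁻¹ : (Matrix (Fin n) (Fin n) R)ˣ) : Matrix (Fin n) (Fin n) R) = C := by
  have hdetA : IsUnit A :=
    ((Module.End.isUnit_iff A).mpr
      (OrzechProperty.bijective_of_surjective_endomorphism A hA))
  have hdetB : IsUnit B :=
    ((Module.End.isUnit_iff B).mpr
      (OrzechProperty.bijective_of_surjective_endomorphism B hB))
  have hA' : IsUnit (LinearMap.toMatrix' A) := by
    have := hdetA.map (LinearMap.toMatrixAlgEquiv' (R := R) (n := Fin n))
    exact this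
  have hB' : IsUnit (LinearMap.toMatrix' B) := by
    have := hdetB.map (LinearMap.toMatrixAlgEquiv' (R := R) (n := Fin n))
    exact this
  obtain ⟨A', hA'⟩ := hA'
  obtain ⟨B', hB'⟩ := hB'
  refine ⟨A', B', ?_⟩
  have h1 : C * (B' * A') = (A' * B' : Matrix (Fin n) (Fin n) R) := by
    have := congrArg LinearMap.toMatrix' h
    rw [LinearMap.toMatrix'_comp, LinearMap.toMatrix'_comp, LinearMap.toMatrix'_comp,
      LinearMap.toMatrix'_toLin', ← hA', ← hB'] at this
    exact this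
  have h2 : ((A' * B' * A'⁻¹ * B'⁻¹ : (Matrix (Fin n) (Fin n) R)ˣ) : Matrix (Fin n) (Fin n) R)
      = (C * (B' * A')) * ((A'⁻¹ * B'⁻¹ : (Matrix (Fin n) (Fin n) R)ˣ)
        : Matrix (Fin n) (Fin n) R) := by
    rw [h1]
    simp only [Units.val_mul, mul_assoc]
  rw [h2, ← Units.val_mul, mul_assoc, ← Units.val_mul]
  have h3 : (B' * A') * (A'⁻¹ * B'⁻¹) = 1 := by group
  rw [h3, Units.val_one, mul_one]

/-- Permuted Krylov basis. -/
lemma krylov_basis {n : ℕ} (C : Matrix (Fin n) (Fin n) R) (v : Fin n → R)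
    (hv : IsUnit (Matrix.of fun i j : Fin n => ((C ^ (j : ℕ)) *ᵥ v) i).det)
    (z : ℕ → ℕ) (hzlt : ∀ i, i < n → z i < n)
    (hzinj : ∀ i j, i < n → j < n → z i = z j → i = j) :
    ∃ b : Basis (Fin n) R (Fin n → R), ∀ i : Fin n, b i = (C ^ (z i)) *ᵥ v := by
  obtain ⟨P, hP⟩ : ∃ P : Matrix (Fin n) (Fin n) R,
    P = Matrix.of fun i j : Fin n => ((C ^ (j : ℕ)) *ᵥ v) i := ⟨_, rfl⟩
  rw [← hP] at hv
  let hinv : Invertible P := Matrix.invertibleOfIsUnitDet P hv
  let e : Basis (Fin n) R (Fin n → R) :=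
    (Pi.basisFun R (Fin n)).map (Matrix.toLinearEquiv' P hinv)
  have he : ∀ j : Fin n, e j = (C ^ (j : ℕ)) *ᵥ v := by
    intro j
    have : e j = P *ᵥ (Pi.single j 1) := by
      have h1 := LinearMap.congr_fun (Matrix.toLinearEquiv'_apply P hinv) (Pi.single j 1)
      rw [Matrix.toLin'_apply] at h1
      rw [← h1]
      simp only [e, Basis.map_apply, Pi.basisFun_apply]
      rfl
    rw [this]
    ext i
    rw [Matrix.mulVec_single_one, hP]
    rfl
  let ζ : Fin n → Fin n := fun i => ⟨z i, hzlt i i.isLt⟩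
  have hζinj : Function.Injective ζ := by
    intro i j hij
    have h1 : z i = z j := congrArg Fin.val hij
    exact Fin.ext (hzinj i j i.isLt j.isLt h1)
  let ζe : Fin n ≃ Fin n := Equiv.ofBijective ζ (Finite.injective_iff_bijective.mp hζinj)
  refine ⟨e.reindex ζe.symm, ?_⟩
  intro i
  have : (e.reindex ζe.symm) i = e (ζe i) := by
    simp
  rw [this, he]
  rfl

theorem cyclic_odd (m : ℕ) (hm : 1 ≤ m)
    (C : Matrix (Fin (2*m+1)) (Fin (2*m+1)) R) (hC : C.det = 1)
    (v : Fin (2*m+1) → R)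
    (hv : IsUnit (Matrix.of fun i j : Fin (2*m+1) => ((C ^ (j : ℕ)) *ᵥ v) i).det) :
    ∃ A B : (Matrix (Fin (2*m+1)) (Fin (2*m+1)) R)ˣ,
      ((A * B * A⁻¹ * B⁻¹ : (Matrix (Fin (2*m+1)) (Fin (2*m+1)) R)ˣ)
        : Matrix (Fin (2*m+1)) (Fin (2*m+1)) R) = C := by
  rcases subsingleton_or_nontrivial R with hR | hR
  · exact ⟨1, 1, Subsingleton.elim _ _⟩
  -- the zigzag
  obtain ⟨z, hz⟩ : ∃ z : ℕ → ℕ, z = fun i => if i % 2 = 0 then m - i/2 else m + (i+1)/2 := ⟨_, rfl⟩
  have hz' : ∀ i, z i = if i % 2 = 0 then m - i/2 else m + (i+1)/2 := by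
    intro i
    rw [hz]
  obtain ⟨b, hb⟩ := krylov_basis C v hv z
    (by
      intro i hi
      rw [hz']
      split_ifs <;> omega)
    (by
      intro i j hi hj h1
      rw [hz', hz'] at h1
      split_ifs at h1 <;> omega)
  let X : ℕ → (Fin (2*m+1) → R) := fun i => if i < 2*m+1 then (C ^ (z i)) *ᵥ v else 0
  have hX : ∀ i, i < 2*m+1 → X i = (C ^ (z i)) *ᵥ v := fun i hi => if_pos hi
  have hCX : ∀ i j, i < 2*m+1 → j < 2*m+1 → z j = z i + 1 → Matrix.toLin' C (X i) = X j := by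
    intro i j hi hj h
    rw [hX i hi, hX j hj, h, Matrix.toLin'_apply, Matrix.mulVec_mulVec, pow_succ']
  obtain ⟨A, B, hA, hB, h⟩ := core m hm b (Matrix.toLin' C)
    (by rw [LinearMap.det_toLin', hC]) X
    (fun i => by rw [hb i]; exact hX i i.isLt) (if_neg (by omega))
    (hCX 0 1 (by omega) (by omega) (by rw [hz', hz']; simp))
    (fun j hj => hCX _ _ (by omega) (by omega) (by
      rw [hz', hz', if_pos (by omega), if_pos (by omega)]
      omega))
    (fun j hj => hCX _ _ (by omega) (by omega) (by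
      rw [hz', hz', if_neg (by omega), if_neg (by omega)]
      omega))
  exact units_of_maps C A B hA hB h

theorem cyclic_even (k : ℕ)
    (C : Matrix (Fin (2*k+4)) (Fin (2*k+4)) R) (hC : C.det = 1)
    (v : Fin (2*k+4) → R)
    (hv : IsUnit (Matrix.of fun i j : Fin (2*k+4) => ((C ^ (j : ℕ)) *ᵥ v) i).det) :
    ∃ A B : (Matrix (Fin (2*k+4)) (Fin (2*k+4)) R)ˣ,
      ((A * B * A⁻¹ * B⁻¹ : (Matrix (Fin (2*k+4)) (Fin (2*k+4)) R)ˣ)
        : Matrix (Fin (2*k+4)) (Fin (2*k+4)) R) = C := by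
  obtain ⟨z, hz⟩ : ∃ z : ℕ → ℕ, z = fun i => if i = 2*k+3 then 1 else if i = 2*k+2 then 0
      else if i % 2 = 0 then k + 2 - i/2 else k + 2 + (i+1)/2 := ⟨_, rfl⟩
  have hz3 : z (2*k+3) = 1 := by
    rw [hz]
    exact if_pos rfl
  have hz2 : z (2*k+2) = 0 := by
    rw [hz]
    simp
  have hz' : ∀ i, i < 2*k+2 → z i = if i % 2 = 0 then k + 2 - i/2 else k + 2 + (i+1)/2 := by
    intro i hi
    rw [hz]
    simp only
    rw [if_neg (by omega), if_neg (by omega)]
  obtain ⟨b, hb⟩ := krylov_basis C v hv z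
    (by
      intro i hi
      rw [hz]
      simp only
      split_ifs <;> omega)
    (by
      intro i j hi hj h1
      rw [hz] at h1
      simp only at h1
      split_ifs at h1 <;> omega)
  let X : ℕ → (Fin (2*k+4) → R) := fun i => (C ^ (z i)) *ᵥ v
  have hCX : ∀ i j, z j = z i + 1 → Matrix.toLin' C (X i) = X j := by
    intro i j h
    change Matrix.toLin' C ((C ^ (z i)) *ᵥ v) = (C ^ (z j)) *ᵥ v
    rw [h, Matrix.toLin'_apply, Matrix.mulVec_mulVec, pow_succ']
  obtain ⟨A, B, hA, hB, h⟩ := core_even k b (Matrix.toLin' C)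
    (by rw [LinearMap.det_toLin', hC]) X
    (fun i => by rw [hb i])
    (hCX 0 1 (by rw [hz' 0 (by omega), hz' 1 (by omega)]; simp))
    (fun j hj => hCX _ _ (by
      rw [hz' _ (by omega), hz' _ (by omega), if_pos (by omega), if_pos (by omega)]
      omega))
    (fun j hj => hCX _ _ (by
      by_cases h : 2*j+3 < 2*k+2
      · rw [hz' _ (by omega), hz' _ (by omega), if_neg (by omega), if_neg (by omega)]
        omega
      · rw [hz' _ (by omega), hz' _ (by omega), if_neg (by omega), if_neg (by omega)]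
        omega))
    (hCX _ _ (by rw [hz2, hz3]))
    (hCX _ _ (by
      rw [hz3, hz' _ (by omega), if_pos (by omega)]
      omega))
  exact units_of_maps C A B hA hB h

/-- Every determinant-one matrix of size `n ≥ 3` over a commutative ring having a cyclic vector is
a commutator of two invertible matrices. -/
theorem cyclic_all (n : ℕ) (hn : 3 ≤ n)
    (C : Matrix (Fin n) (Fin n) R) (hC : C.det = 1) (v : Fin n → R)
    (hv : IsUnit (Matrix.of fun i j : Fin n => ((C ^ (j : ℕ)) *ᵥ v) i).det) :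
    ∃ A B : (Matrix (Fin n) (Fin n) R)ˣ,
      ((A * B * A⁻¹ * B⁻¹ : (Matrix (Fin n) (Fin n) R)ˣ) : Matrix (Fin n) (Fin n) R) = C := by
  rcases Nat.even_or_odd' n with ⟨j, hj | hj⟩
  · obtain ⟨k, rfl⟩ : ∃ k, j = k + 2 := ⟨j - 2, by omega⟩
    have hj' : n = 2*k+4 := by omega
    subst hj'
    exact cyclic_even k C hC v hv
  · subst hj
    exact cyclic_odd j (by omega) C hC v hv

end Pool.H89.Comm
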