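import Mathlib
import Pool.Agent.H89.Comm.Odd2
import Pool.Agent.H89.Comm.Mat
import Pool.Agent.H89.Comm3.Three

set_option autoImplicit false

namespace Pool.H89.Comm

open Finset Module Matrix

/-- Permuted column basis of a matrix with unit determinant. -/
lemma column_basis {n : ℕ} (P : Matrix (Fin n) (Fin n) ℤ) (hP : IsUnit P.det)
    (z : ℕ → ℕ) (hzlt : ∀ i, i < n → z i < n)
    (hzinj : ∀ i j, i < n → j < n → z i = z j → i = j) :
    ∃ b : Basis (Fin n) ℤ (Fin n → ℤ), ∀ i : Fin n, b i = P.col ⟨z i, hzlt i i.isLt⟩ := by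
  let hinv : Invertible P := Matrix.invertibleOfIsUnitDet P hP
  let e : Basis (Fin n) ℤ (Fin n → ℤ) :=
    (Pi.basisFun ℤ (Fin n)).map (Matrix.toLinearEquiv' P hinv)
  have he : ∀ j : Fin n, e j = P.col j := by
    intro j
    have : e j = P *ᵥ (Pi.single j 1) := by
      have h1 := LinearMap.congr_fun (Matrix.toLinearEquiv'_apply P hinv) (Pi.single j 1)
      rw [Matrix.toLin'_apply] at h1
      rw [← h1]
      simp only [e, Basis.map_apply, Pi.basisFun_apply]
      rfl
    rw [this, Matrix.mulVec_single_one]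
  let ζ : Fin n → Fin n := fun i => ⟨z i, hzlt i i.isLt⟩
  have hζinj : Function.Injective ζ := by
    intro i j hij
    have h1 : z i = z j := congrArg Fin.val hij
    exact Fin.ext (hzinj i j i.isLt j.isLt h1)
  let ζe : Fin n ≃ Fin n := Equiv.ofBijective ζ (Finite.injective_iff_bijective.mp hζinj)
  refine ⟨e.reindex ζe.symm, ?_⟩
  intro i
  have : (e.reindex ζe.symm) i = e (ζe i) := by
    simp
  rw [this, he]
  rfl

lemma mem_span_range_sum {R V : Type*} [CommRing R] [AddCommGroup V] [Module R V] (X : ℕ → V)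
    (n : ℕ) (v : V) (hv : v ∈ Submodule.span R (X '' {i | i < n})) :
    ∃ y : ℕ → R, v = ∑ i ∈ range n, y i • X i := by
  induction hv using Submodule.span_induction with
  | mem w hw =>
    obtain ⟨i, hi, rfl⟩ := hw
    refine ⟨Pi.single i 1, ?_⟩
    rw [Finset.sum_eq_single i]
    · simp
    · intro j _ hj
      rw [Pi.single_eq_of_ne hj, zero_smul]
    · intro h
      exact absurd (mem_range.mpr hi) h
  | zero => exact ⟨0, by simp⟩
  | add w w' _ _ ih ih' =>
    obtain ⟨y, rfl⟩ := ih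
    obtain ⟨y', rfl⟩ := ih'
    refine ⟨y + y', ?_⟩
    rw [← sum_add_distrib]
    apply sum_congr rfl
    intro i _
    rw [Pi.add_apply, add_smul]
  | smul c w _ ih =>
    obtain ⟨y, rfl⟩ := ih
    refine ⟨c • y, ?_⟩
    rw [smul_sum]
    apply sum_congr rfl
    intro i _
    rw [Pi.smul_apply, smul_assoc]

theorem two_vectors (k : ℕ) (hk : 1 ≤ k) (C : Matrix (Fin (2*k+3)) (Fin (2*k+3)) ℤ)
    (hC : C.det = 1) (v z : Fin (2*k+3) → ℤ)
    (h1 : IsUnit (Matrix.of fun i j : Fin (2*k+3) =>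
      if (j : ℕ) < 2*k+2 then ((C ^ (j : ℕ)) *ᵥ v) i else z i).det)
    (h2 : IsUnit (Matrix.of fun i j : Fin (2*k+3) =>
      if (j : ℕ) < 2*k+1 then ((C ^ ((j : ℕ) + 1)) *ᵥ v) i
      else if (j : ℕ) = 2*k+1 then z i else (C *ᵥ z) i).det) :
    ∃ A B : (Matrix (Fin (2*k+3)) (Fin (2*k+3)) ℤ)ˣ,
      ((A * B * A⁻¹ * B⁻¹ : (Matrix (Fin (2*k+3)) (Fin (2*k+3)) ℤ)ˣ)
        : Matrix (Fin (2*k+3)) (Fin (2*k+3)) ℤ) = C := by
  obtain ⟨P, hP⟩ : ∃ P : Matrix (Fin (2*k+3)) (Fin (2*k+3)) ℤ, P = Matrix.of fun i (j : Fin (2*k+3)) =>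
      if (j : ℕ) < 2*k+2 then ((C ^ (j : ℕ)) *ᵥ v) i else z i := ⟨_, rfl⟩
  obtain ⟨Q, hQ⟩ : ∃ Q : Matrix (Fin (2*k+3)) (Fin (2*k+3)) ℤ, Q = Matrix.of fun i (j : Fin (2*k+3)) =>
      if (j : ℕ) < 2*k+1 then ((C ^ ((j : ℕ) + 1)) *ᵥ v) i
      else if (j : ℕ) = 2*k+1 then z i else (C *ᵥ z) i := ⟨_, rfl⟩
  rw [← hP] at h1
  rw [← hQ] at h2
  have hPlow : ∀ (j : ℕ) (hj : j < 2*k+3), j < 2*k+2 → P.col ⟨j, hj⟩ = (C ^ j) *ᵥ v := by
    intro j hj hj'
    ext i
    rw [hP]
    exact if_pos hj'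
  have hPlast : P.col ⟨2*k+2, by omega⟩ = z := by
    ext i
    rw [hP]
    exact if_neg (by simp)
  -- coordinates of `C z`
  have hPPinv : P * P⁻¹ = 1 := Matrix.mul_nonsing_inv P h1
  have hPinvP : P⁻¹ * P = 1 := Matrix.nonsing_inv_mul P h1
  obtain ⟨c, hc⟩ : ∃ c : Fin (2*k+3) → ℤ, c = P⁻¹ *ᵥ (C *ᵥ z) := ⟨_, rfl⟩
  have hPc : P *ᵥ c = C *ᵥ z := by
    rw [hc, Matrix.mulVec_mulVec, hPPinv, Matrix.one_mulVec]
  obtain ⟨c', hc'⟩ : ∃ c' : ℕ → ℤ, ∀ i : Fin (2*k+3), c' i = c i :=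
    ⟨fun i => if h : i < 2*k+3 then c ⟨i, h⟩ else 0, fun i => by simp⟩
  -- `c 0` is a unit
  have hunit : IsUnit (c' 0) := by
    obtain ⟨K, hK⟩ : ∃ K : Matrix (Fin (2*k+3)) (Fin (2*k+3)) ℤ, K = P⁻¹ * Q := ⟨_, rfl⟩
    have hKunit : IsUnit K.det := by
      rw [hK, Matrix.det_mul]
      exact (Matrix.isUnit_nonsing_inv_det P h1).mul h2
    have hK0 : ∀ j : Fin (2*k+3), (j : ℕ) ≠ 2*k+2 → K ⟨0, by omega⟩ j = 0 := by
      intro j hj
      have hjlt := j.isLt
      have e1 : Q.col j = P.col ⟨(j : ℕ) + 1, by omega⟩ := by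
        ext i
        rw [Matrix.col_apply, hQ, hP]
        simp only [Matrix.col_apply, Matrix.of_apply]
        by_cases h : (j : ℕ) < 2*k+1
        · rw [if_pos h, if_pos (by omega)]
        · rw [if_neg h, if_pos (by omega), if_neg (by omega)]
      have e2 : K.col j = (1 : Matrix (Fin (2*k+3)) (Fin (2*k+3)) ℤ).col ⟨(j : ℕ) + 1, by omega⟩ := by
        rw [← hPinvP, hK]
        ext i
        rw [Matrix.col_apply, Matrix.col_apply, Matrix.mul_apply, Matrix.mul_apply]
        apply sum_congr rfl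
        intro l _
        have := congrFun e1 l
        rw [Matrix.col_apply, Matrix.col_apply] at this
        rw [this]
      have e3 := congrFun e2 ⟨0, by omega⟩
      rw [Matrix.col_apply, Matrix.col_apply] at e3
      rw [e3, Matrix.one_apply_ne]
      intro h
      have := congrArg Fin.val h
      simp at this
    have hKlast : K ⟨0, by omega⟩ ⟨2*k+2, by omega⟩ = c' 0 := by
      have e1 : ∀ l, Q l ⟨2*k+2, by omega⟩ = (C *ᵥ z) l := by
        intro l
        rw [hQ, Matrix.of_apply, if_neg (by simp), if_neg (by simp)]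
      have e2 : c' 0 = c ⟨0, by omega⟩ := hc' ⟨0, by omega⟩
      rw [e2, hc, hK, Matrix.mul_apply]
      simp only [e1]
      rfl
    have hKinv : K * K⁻¹ = 1 := Matrix.mul_nonsing_inv K hKunit
    have h00 : (K * K⁻¹) ⟨0, by omega⟩ ⟨0, by omega⟩ = 1 := by
      rw [hKinv, Matrix.one_apply_eq]
    rw [Matrix.mul_apply, Finset.sum_eq_single (⟨2*k+2, by omega⟩ : Fin (2*k+3))] at h00
    · rw [hKlast] at h00
      exact IsUnit.of_mul_eq_one _ h00
    · intro j _ hj
      have hj' : (j : ℕ) ≠ 2*k+2 := fun h => hj (Fin.ext h)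
      rw [hK0 j hj', zero_mul]
    · intro h
      exact absurd (mem_univ _) h
  obtain ⟨w, hw⟩ := hunit
  -- expansion of `C z`
  let E : ℕ → (Fin (2*k+3) → ℤ) := fun j => if j < 2*k+2 then (C ^ j) *ᵥ v else z
  have hE : ∀ j, j < 2*k+2 → E j = (C ^ j) *ᵥ v := fun j hj => if_pos hj
  have hElast : E (2*k+2) = z := if_neg (by omega)
  have hPE : ∀ j : Fin (2*k+3), P.col j = E j := by
    intro j
    by_cases h : (j : ℕ) < 2*k+2
    · rw [hE _ h]
      exact hPlow j j.isLt h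
    · have h' : (j : ℕ) = 2*k+2 := by omega
      have h'' : j = ⟨2*k+2, by omega⟩ := Fin.ext h'
      rw [h', hElast, h'']
      exact hPlast
  have hexp : C *ᵥ z = ∑ j ∈ range (2*k+3), c' j • E j := by
    rw [Finset.sum_range, ← hPc]
    ext i
    rw [Matrix.mulVec, dotProduct, Finset.sum_apply]
    apply sum_congr rfl
    intro j _
    have := congrFun (hPE j) i
    rw [Matrix.col_apply] at this
    rw [Pi.smul_apply, ← this, hc', smul_eq_mul, mul_comm]
  -- the modified vector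
  obtain ⟨α, hα⟩ : ∃ α : ℤ, α = - c' (2*k+1) := ⟨_, rfl⟩
  obtain ⟨z', hz'⟩ : ∃ z' : Fin (2*k+3) → ℤ, z' = z + α • ((C ^ (2*k)) *ᵥ v) := ⟨_, rfl⟩
  obtain ⟨P', hP'⟩ : ∃ P' : Matrix (Fin (2*k+3)) (Fin (2*k+3)) ℤ,
      P' = P * Matrix.transvection ⟨2*k, by omega⟩ ⟨2*k+2, by omega⟩ α := ⟨_, rfl⟩
  have hP'unit : IsUnit P'.det := by
    rw [hP', Matrix.det_mul, Matrix.det_transvection_of_ne _ _ (by
      intro h
      have := congrArg Fin.val h
      simp at this), mul_one]
    exact h1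
  have hP'col : ∀ j : Fin (2*k+3), (j : ℕ) ≠ 2*k+2 → P'.col j = P.col j := by
    intro j hj
    ext i
    rw [Matrix.col_apply, Matrix.col_apply, hP']
    exact Matrix.mul_transvection_apply_of_ne _ _ _ _ (fun h => hj (congrArg Fin.val h)) _ _
  have hP'last : P'.col ⟨2*k+2, by omega⟩ = z' := by
    ext i
    rw [Matrix.col_apply, hP', Matrix.mul_transvection_apply_same, hz']
    have a1 := congrFun hPlast i
    have a2 := congrFun (hPlow (2*k) (by omega) (by omega)) i
    rw [Matrix.col_apply] at a1 a2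
    rw [a1, a2]
    rfl
  -- the zigzag
  obtain ⟨ζ, hζ⟩ : ∃ ζ : ℕ → ℕ, ζ = fun i => if i = 2*k+2 then 2*k+2 else
      if i % 2 = 0 then k - i/2 else k + (i+1)/2 := ⟨_, rfl⟩
  have hζl : ζ (2*k+2) = 2*k+2 := by
    rw [hζ]
    exact if_pos rfl
  have hζe : ∀ j, j ≤ k → ζ (2*j) = k - j := by
    intro j hj
    rw [hζ]
    simp only
    rw [if_neg (by omega), if_pos (by omega)]
    omega
  have hζo : ∀ j, j ≤ k → ζ (2*j+1) = k + 1 + j := by
    intro j hj
    rw [hζ]
    simp only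
    rw [if_neg (by omega), if_neg (by omega)]
    omega
  have hζlt : ∀ i, i < 2*k+3 → ζ i < 2*k+3 := by
    intro i hi
    rw [hζ]
    simp only
    split_ifs <;> omega
  obtain ⟨b, hb⟩ := column_basis P' hP'unit ζ hζlt
    (by
      intro i j hi hj h
      rw [hζ] at h
      simp only at h
      split_ifs at h <;> omega)
  let X : ℕ → (Fin (2*k+3) → ℤ) := fun i => if i = 2*k+2 then z' else (C ^ (ζ i)) *ᵥ v
  have hXlast : X (2*k+2) = z' := if_pos rfl
  have hXlow : ∀ i, i ≠ 2*k+2 → X i = (C ^ (ζ i)) *ᵥ v := fun i hi => if_neg hi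
  have hbX : ∀ i : Fin (2*k+3), X i = b i := by
    intro i
    rw [hb]
    by_cases h : (i : ℕ) = 2*k+2
    · have e : (⟨ζ i, hζlt i i.isLt⟩ : Fin (2*k+3)) = ⟨2*k+2, by omega⟩ := by
        apply Fin.ext
        simp only
        rw [h, hζl]
      rw [e, hP'last, h, hXlast]
    · have hlt : ζ i < 2*k+2 := by
        have hi := i.isLt
        rw [hζ]
        simp only
        rw [if_neg h]
        split_ifs <;> omega
      rw [hXlow _ h, hP'col _ (by simp only; omega), hPlow _ _ hlt]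
  have hXe : ∀ j, j ≤ k → X (2*j) = (C ^ (k-j)) *ᵥ v := by
    intro j hj
    rw [hXlow _ (by omega), hζe j hj]
  have hXo : ∀ j, j ≤ k → X (2*j+1) = (C ^ (k+1+j)) *ᵥ v := by
    intro j hj
    rw [hXlow _ (by omega), hζo j hj]
  have hCpow : ∀ j, Matrix.toLin' C ((C ^ j) *ᵥ v) = (C ^ (j+1)) *ᵥ v := by
    intro j
    rw [Matrix.toLin'_apply, Matrix.mulVec_mulVec, pow_succ']
  -- membership
  have hmem : C *ᵥ z' - c' 0 • v - c' (2*k+2) • z'
      ∈ Submodule.span ℤ (X '' {i | i < 2*k}) := by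
    have hpow : ∀ j, 1 ≤ j → j ≤ 2*k → (C ^ j) *ᵥ v ∈ Submodule.span ℤ (X '' {i | i < 2*k}) := by
      intro j hj1 hj2
      apply Submodule.subset_span
      by_cases h : j ≤ k
      · refine ⟨2*(k-j), by simp only [Set.mem_ofPred_eq]; omega, ?_⟩
        rw [hXe _ (by omega)]
        congr 2
        omega
      · refine ⟨2*(j-k-1)+1, by simp only [Set.mem_ofPred_eq]; omega, ?_⟩
        rw [hXo _ (by omega)]
        congr 2
        omega
    have e1 : C *ᵥ z' - c' 0 • v - c' (2*k+2) • z'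
        = (∑ j ∈ range (2*k), c' (j+1) • ((C ^ (j+1)) *ᵥ v))
          - (c' (2*k+2) * α) • ((C ^ (2*k)) *ᵥ v) := by
      have e2 : C *ᵥ z' = C *ᵥ z + α • ((C ^ (2*k+1)) *ᵥ v) := by
        rw [hz', Matrix.mulVec_add, Matrix.mulVec_smul, Matrix.mulVec_mulVec, ← pow_succ']
      have e3 : ∑ j ∈ range (2*k), c' (j+1) • E (j+1)
          = ∑ j ∈ range (2*k), c' (j+1) • ((C ^ (j+1)) *ᵥ v) := by
        apply sum_congr rfl
        intro j hj
        have := mem_range.mp hj
        rw [hE _ (by omega)]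
      rw [e2, hexp, sum_range_succ, sum_range_succ, sum_range_succ', e3, hE 0 (by omega),
        hE (2*k+1) (by omega), hElast, hz', hα, pow_zero, Matrix.one_mulVec]
      module
    rw [e1]
    apply Submodule.sub_mem
    · apply Submodule.sum_mem
      intro j hj
      have := mem_range.mp hj
      exact Submodule.smul_mem _ _ (hpow _ (by omega) (by omega))
    · exact Submodule.smul_mem _ _ (hpow _ (by omega) (by omega))
  obtain ⟨y, hy⟩ := mem_span_range_sum X (2*k) _ hmem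
  obtain ⟨A, B, hA, hB, h⟩ := core_two k b (Matrix.toLin' C)
    (by rw [LinearMap.det_toLin', hC]) X hbX
    (by
      have a0 := hXe 0 (by omega)
      have a1 := hXo 0 (by omega)
      simp only [mul_zero, zero_add, Nat.sub_zero, add_zero] at a0 a1
      rw [a0, a1, hCpow])
    (fun j hj => by
      have a0 := hXe (j+1) (by omega)
      rw [show 2*(j+1) = 2*j+2 by ring] at a0
      rw [a0, hXe j (by omega), hCpow]
      congr 2
      omega)
    (fun j hj => by
      have a0 := hXo (j+1) (by omega)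
      rw [show 2*(j+1)+1 = 2*j+3 by ring] at a0
      rw [a0, hXo j (by omega), hCpow]
      congr 2)
    (c' 0) ((w⁻¹ : ℤˣ) : ℤ) (c' (2*k+2)) (by rw [← hw, Units.mul_inv]) y
    (by
      rw [hXlast, ← hy, Matrix.toLin'_apply, hXe k le_rfl, Nat.sub_self, pow_zero,
        Matrix.one_mulVec]
      abel)
  exact units_of_maps C A B hA hB h

/-- The two-vector criterion in every odd dimension `n ≥ 3`. -/
theorem two_vectors_odd (n : ℕ) (hn : 3 ≤ n) (hodd : Odd n) (C : Matrix (Fin n) (Fin n) ℤ)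
    (hC : C.det = 1) (v z : Fin n → ℤ)
    (h1 : IsUnit (Matrix.of fun i j : Fin n =>
      if (j : ℕ) + 1 < n then ((C ^ (j : ℕ)) *ᵥ v) i else z i).det)
    (h2 : IsUnit (Matrix.of fun i j : Fin n =>
      if (j : ℕ) + 2 < n then ((C ^ ((j : ℕ) + 1)) *ᵥ v) i
      else if (j : ℕ) + 2 = n then z i else (C *ᵥ z) i).det) :
    ∃ A B : (Matrix (Fin n) (Fin n) ℤ)ˣ,
      ((A * B * A⁻¹ * B⁻¹ : (Matrix (Fin n) (Fin n) ℤ)ˣ) : Matrix (Fin n) (Fin n) ℤ) = C := by
  obtain ⟨m, hm⟩ := hodd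
  obtain ⟨k, rfl⟩ : ∃ k, n = 2*k+3 := ⟨m-1, by omega⟩
  rcases Nat.eq_zero_or_pos k with hk | hk
  · subst hk
    apply Pool.H89.Comm3.three C hC v z
    · rw [← Matrix.det_transpose]
      convert h1 using 2
      ext i j
      fin_cases j <;> simp
    · rw [← Matrix.det_transpose]
      convert h2 using 2
      ext i j
      fin_cases j <;> simp
  · apply two_vectors k hk C hC v z
    · convert h1 using 2
      ext i j
      rw [Matrix.of_apply, Matrix.of_apply]
      congr 1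
      apply propext
      constructor <;> intro h <;> omega
    · convert h2 using 2
      ext i j
      rw [Matrix.of_apply, Matrix.of_apply]
      congr 1
      · apply propext
        constructor <;> intro h <;> omega
      · congr 1
        apply propext
        constructor <;> intro h <;> omega

end Pool.H89.Comm
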