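import Mathlib
import Pool.Agent.H89.Comm.Even2
import Pool.Agent.H89.Comm.Two

set_option autoImplicit false

namespace Pool.H89.Comm

open Finset Module Matrix

theorem two_vectors_even (k : ℕ) (hk : 1 ≤ k) (C : Matrix (Fin (2*k+4)) (Fin (2*k+4)) ℤ)
    (hC : C.det = 1) (v z : Fin (2*k+4) → ℤ)
    (h1 : IsUnit (Matrix.of fun i j : Fin (2*k+4) =>
      if (j : ℕ) < 2*k+3 then ((C ^ (j : ℕ)) *ᵥ v) i else z i).det)
    (h2 : IsUnit (Matrix.of fun i j : Fin (2*k+4) =>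
      if (j : ℕ) < 2*k+2 then ((C ^ ((j : ℕ) + 1)) *ᵥ v) i
      else if (j : ℕ) = 2*k+2 then z i else (C *ᵥ z) i).det) :
    ∃ A B : (Matrix (Fin (2*k+4)) (Fin (2*k+4)) ℤ)ˣ,
      ((A * B * A⁻¹ * B⁻¹ : (Matrix (Fin (2*k+4)) (Fin (2*k+4)) ℤ)ˣ)
        : Matrix (Fin (2*k+4)) (Fin (2*k+4)) ℤ) = C := by
  obtain ⟨P, hP⟩ : ∃ P : Matrix (Fin (2*k+4)) (Fin (2*k+4)) ℤ, P = Matrix.of fun i (j : Fin (2*k+4)) =>
      if (j : ℕ) < 2*k+3 then ((C ^ (j : ℕ)) *ᵥ v) i else z i := ⟨_, rfl⟩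
  obtain ⟨Q, hQ⟩ : ∃ Q : Matrix (Fin (2*k+4)) (Fin (2*k+4)) ℤ, Q = Matrix.of fun i (j : Fin (2*k+4)) =>
      if (j : ℕ) < 2*k+2 then ((C ^ ((j : ℕ) + 1)) *ᵥ v) i
      else if (j : ℕ) = 2*k+2 then z i else (C *ᵥ z) i := ⟨_, rfl⟩
  rw [← hP] at h1
  rw [← hQ] at h2
  have hPlow : ∀ (j : ℕ) (hj : j < 2*k+4), j < 2*k+3 → P.col ⟨j, hj⟩ = (C ^ j) *ᵥ v := by
    intro j hj hj'
    ext i
    rw [hP]
    exact if_pos hj'
  have hPlast : P.col ⟨2*k+3, by omega⟩ = z := by
    ext i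
    rw [hP]
    exact if_neg (by simp)
  -- coordinates of `C z`
  have hPPinv : P * P⁻¹ = 1 := Matrix.mul_nonsing_inv P h1
  have hPinvP : P⁻¹ * P = 1 := Matrix.nonsing_inv_mul P h1
  obtain ⟨c, hc⟩ : ∃ c : Fin (2*k+4) → ℤ, c = P⁻¹ *ᵥ (C *ᵥ z) := ⟨_, rfl⟩
  have hPc : P *ᵥ c = C *ᵥ z := by
    rw [hc, Matrix.mulVec_mulVec, hPPinv, Matrix.one_mulVec]
  obtain ⟨c', hc'⟩ : ∃ c' : ℕ → ℤ, ∀ i : Fin (2*k+4), c' i = c i :=
    ⟨fun i => if h : i < 2*k+4 then c ⟨i, h⟩ else 0, fun i => by simp⟩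
  -- `c 0` is a unit
  have hunit : IsUnit (c' 0) := by
    obtain ⟨K, hK⟩ : ∃ K : Matrix (Fin (2*k+4)) (Fin (2*k+4)) ℤ, K = P⁻¹ * Q := ⟨_, rfl⟩
    have hKunit : IsUnit K.det := by
      rw [hK, Matrix.det_mul]
      exact (Matrix.isUnit_nonsing_inv_det P h1).mul h2
    have hK0 : ∀ j : Fin (2*k+4), (j : ℕ) ≠ 2*k+3 → K ⟨0, by omega⟩ j = 0 := by
      intro j hj
      have hjlt := j.isLt
      have e1 : Q.col j = P.col ⟨(j : ℕ) + 1, by omega⟩ := by
        ext i
        rw [Matrix.col_apply, hQ, hP]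
        simp only [Matrix.col_apply, Matrix.of_apply]
        by_cases h : (j : ℕ) < 2*k+2
        · rw [if_pos h, if_pos (by omega)]
        · rw [if_neg h, if_pos (by omega), if_neg (by omega)]
      have e2 : K.col j = (1 : Matrix (Fin (2*k+4)) (Fin (2*k+4)) ℤ).col ⟨(j : ℕ) + 1, by omega⟩ := by
        rw [← hPinvP, hK]
        ext i
        rw [Matrix.col_apply, Matrix.col_apply, Matrix.mul_apply, Matrix.mul_apply]
        apply sum_congr rfl
        intro l _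
        have := congrFun e1 l
        rw [Matrix.col_apply, Matrix.col_apply] at this
        rw [this]
      have e3 := congrFun e2 ⟨0, by omega⟩
      rw [Matrix.col_apply, Matrix.col_apply] at e3
      rw [e3, Matrix.one_apply_ne]
      intro h
      have := congrArg Fin.val h
      simp at this
    have hKlast : K ⟨0, by omega⟩ ⟨2*k+3, by omega⟩ = c' 0 := by
      have e1 : ∀ l, Q l ⟨2*k+3, by omega⟩ = (C *ᵥ z) l := by
        intro l
        rw [hQ, Matrix.of_apply, if_neg (by simp), if_neg (by simp)]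
      have e2 : c' 0 = c ⟨0, by omega⟩ := hc' ⟨0, by omega⟩
      rw [e2, hc, hK, Matrix.mul_apply]
      simp only [e1]
      rfl
    have hKinv : K * K⁻¹ = 1 := Matrix.mul_nonsing_inv K hKunit
    have h00 : (K * K⁻¹) ⟨0, by omega⟩ ⟨0, by omega⟩ = 1 := by
      rw [hKinv, Matrix.one_apply_eq]
    rw [Matrix.mul_apply, Finset.sum_eq_single (⟨2*k+3, by omega⟩ : Fin (2*k+4))] at h00
    · rw [hKlast] at h00
      exact IsUnit.of_mul_eq_one _ h00
    · intro j _ hj
      have hj' : (j : ℕ) ≠ 2*k+3 := fun h => hj (Fin.ext h)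
      rw [hK0 j hj', zero_mul]
    · intro h
      exact absurd (mem_univ _) h
  obtain ⟨w, hw⟩ := hunit
  -- expansion of `C z`
  let E : ℕ → (Fin (2*k+4) → ℤ) := fun j => if j < 2*k+3 then (C ^ j) *ᵥ v else z
  have hE : ∀ j, j < 2*k+3 → E j = (C ^ j) *ᵥ v := fun j hj => if_pos hj
  have hElast : E (2*k+3) = z := if_neg (by omega)
  have hPE : ∀ j : Fin (2*k+4), P.col j = E j := by
    intro j
    by_cases h : (j : ℕ) < 2*k+3
    · rw [hE _ h]
      exact hPlow j j.isLt h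
    · have h' : (j : ℕ) = 2*k+3 := by omega
      have h'' : j = ⟨2*k+3, by omega⟩ := Fin.ext h'
      rw [h', hElast, h'']
      exact hPlast
  have hexp : C *ᵥ z = ∑ j ∈ range (2*k+4), c' j • E j := by
    rw [Finset.sum_range, ← hPc]
    ext i
    rw [Matrix.mulVec, dotProduct, Finset.sum_apply]
    apply sum_congr rfl
    intro j _
    have := congrFun (hPE j) i
    rw [Matrix.col_apply] at this
    rw [Pi.smul_apply, ← this, hc', smul_eq_mul, mul_comm]
  -- the modified vector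
  obtain ⟨s, hs⟩ : ∃ s : ℤ, s * c' 0 = 1 := ⟨((w⁻¹ : ℤˣ) : ℤ), by rw [← hw, Units.inv_mul]⟩
  obtain ⟨α, hα⟩ : ∃ α : ℤ, α = - c' (2*k+2) := ⟨_, rfl⟩
  obtain ⟨γ, hγ⟩ : ∃ γ : ℤ, γ = c' (2*k+3) := ⟨_, rfl⟩
  obtain ⟨d, hd⟩ : ∃ d : ℤ, d = c' (2*k+1) - γ * α := ⟨_, rfl⟩
  obtain ⟨z3, hz3⟩ : ∃ z3 : Fin (2*k+4) → ℤ,
      z3 = s • (z + α • ((C ^ (2*k+1)) *ᵥ v) - d • ((C ^ (2*k)) *ᵥ v)) := ⟨_, rfl⟩
  obtain ⟨Y0, hY0⟩ : ∃ Y0 : Fin (2*k+4) → ℤ,
      Y0 = s • (∑ j ∈ range (2*k), c' (j+1) • ((C ^ (j+1)) *ᵥ v))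
        + (s * γ * d) • ((C ^ (2*k)) *ᵥ v) := ⟨_, rfl⟩
  have hCz3 : C *ᵥ z3 = v + γ • z3 + Y0 := by
    have e2 : C *ᵥ z3 = s • (C *ᵥ z + α • ((C ^ (2*k+2)) *ᵥ v) - d • ((C ^ (2*k+1)) *ᵥ v)) := by
      rw [hz3, Matrix.mulVec_smul, Matrix.mulVec_sub, Matrix.mulVec_add, Matrix.mulVec_smul,
        Matrix.mulVec_smul, Matrix.mulVec_mulVec, Matrix.mulVec_mulVec, ← pow_succ', ← pow_succ']
    have e3 : ∑ j ∈ range (2*k), c' (j+1) • E (j+1)
        = ∑ j ∈ range (2*k), c' (j+1) • ((C ^ (j+1)) *ᵥ v) := by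
      apply sum_congr rfl
      intro j hj
      have := mem_range.mp hj
      rw [hE _ (by omega)]
    have e4 : (s * c' 0) • v = v := by
      rw [hs, one_smul]
    have e5 : C *ᵥ z3 = (s * c' 0) • v + γ • z3 + Y0 := by
      rw [e2, hexp, sum_range_succ, sum_range_succ, sum_range_succ, sum_range_succ', e3,
        hE 0 (by omega), hE (2*k+1) (by omega), hE (2*k+2) (by omega), hElast, hz3, hY0, hd, hγ, hα,
        pow_zero, Matrix.one_mulVec]
      module
    rw [e5, e4]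
  obtain ⟨P3, hP3⟩ : ∃ P3 : Matrix (Fin (2*k+4)) (Fin (2*k+4)) ℤ,
      P3 = Matrix.of fun i (j : Fin (2*k+4)) =>
      if (j : ℕ) < 2*k+2 then ((C ^ ((j : ℕ) + 1)) *ᵥ v) i
      else if (j : ℕ) = 2*k+2 then z3 i else (C *ᵥ z3) i := ⟨_, rfl⟩
  have hP3low : ∀ (j : ℕ) (hj : j < 2*k+4), j < 2*k+2 → P3.col ⟨j, hj⟩ = (C ^ (j+1)) *ᵥ v := by
    intro j hj hj'
    ext i
    rw [hP3]
    exact if_pos hj'
  have hP3z : P3.col ⟨2*k+2, by omega⟩ = z3 := by
    ext i
    rw [Matrix.col_apply, hP3, Matrix.of_apply, if_neg (by simp), if_pos (by simp)]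
  have hP3C : P3.col ⟨2*k+3, by omega⟩ = C *ᵥ z3 := by
    ext i
    rw [Matrix.col_apply, hP3, Matrix.of_apply, if_neg (by simp), if_neg (by simp)]
  have hcol : ∀ j, P3.col j ∈ LinearMap.range (Matrix.toLin' P3) := by
    intro j
    refine ⟨Pi.single j 1, ?_⟩
    rw [Matrix.toLin'_apply, Matrix.mulVec_single_one]
  have hpow : ∀ j, 1 ≤ j → j ≤ 2*k+2 → (C ^ j) *ᵥ v ∈ LinearMap.range (Matrix.toLin' P3) := by
    intro j hj1 hj2
    have e := hP3low (j-1) (by omega) (by omega)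
    rw [show j-1+1 = j by omega] at e
    rw [← e]
    exact hcol _
  have hz3mem : z3 ∈ LinearMap.range (Matrix.toLin' P3) := by
    rw [← hP3z]
    exact hcol _
  have hCz3mem : C *ᵥ z3 ∈ LinearMap.range (Matrix.toLin' P3) := by
    rw [← hP3C]
    exact hcol _
  have hvmem : v ∈ LinearMap.range (Matrix.toLin' P3) := by
    have hYmem : Y0 ∈ LinearMap.range (Matrix.toLin' P3) := by
      rw [hY0]
      apply Submodule.add_mem
      · apply Submodule.smul_mem
        apply Submodule.sum_mem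
        intro j hj
        have := mem_range.mp hj
        exact Submodule.smul_mem _ _ (hpow _ (by omega) (by omega))
      · exact Submodule.smul_mem _ _ (hpow _ (by omega) (by omega))
    have h3 := Submodule.sub_mem _ (Submodule.sub_mem _ hCz3mem hYmem)
      (Submodule.smul_mem _ γ hz3mem)
    rw [hCz3, add_sub_cancel_right, add_sub_cancel_right] at h3
    exact h3
  have hzmem : z ∈ LinearMap.range (Matrix.toLin' P3) := by
    have e : z = c' 0 • z3 - α • ((C ^ (2*k+1)) *ᵥ v) + d • ((C ^ (2*k)) *ᵥ v) := by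
      rw [hz3, smul_smul, mul_comm (c' 0) s, hs, one_smul]
      abel
    rw [e]
    apply Submodule.add_mem
    · apply Submodule.sub_mem
      · exact Submodule.smul_mem _ _ hz3mem
      · exact Submodule.smul_mem _ _ (hpow _ (by omega) (by omega))
    · exact Submodule.smul_mem _ _ (hpow _ (by omega) (by omega))
  have hsurj : Function.Surjective (Matrix.toLin' P3) := by
    intro x
    have e : x = ∑ j, (P⁻¹ *ᵥ x) j • P.col j := by
      have e1 : P *ᵥ (P⁻¹ *ᵥ x) = x := by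
        rw [Matrix.mulVec_mulVec, hPPinv, Matrix.one_mulVec]
      conv_lhs => rw [← e1]
      ext i
      rw [Matrix.mulVec, dotProduct, Finset.sum_apply]
      apply sum_congr rfl
      intro j _
      rw [Pi.smul_apply, Matrix.col_apply, smul_eq_mul, mul_comm]
    rw [e]
    change _ ∈ LinearMap.range (Matrix.toLin' P3)
    apply Submodule.sum_mem
    intro j _
    apply Submodule.smul_mem
    rw [hPE]
    by_cases h : (j : ℕ) < 2*k+3
    · rw [hE _ h]
      rcases Nat.eq_zero_or_pos (j : ℕ) with h0 | h0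
      · rw [h0, pow_zero, Matrix.one_mulVec]
        exact hvmem
      · exact hpow _ h0 (by omega)
    · have h' : (j : ℕ) = 2*k+3 := by
        have := j.isLt
        omega
      rw [h', hElast]
      exact hzmem
  have hP3unit : IsUnit P3.det := by
    rw [← LinearMap.det_toLin']
    exact (LinearMap.isUnit_iff_isUnit_det _).mp ((Module.End.isUnit_iff _).mpr
      (OrzechProperty.bijective_of_surjective_endomorphism _ hsurj))
  -- the zigzag
  obtain ⟨ζ, hζ⟩ : ∃ ζ : ℕ → ℕ, ζ = fun i => if 2*k+2 ≤ i then i else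
      if i % 2 = 0 then k - i/2 else k + (i+1)/2 := ⟨_, rfl⟩
  have hζl : ∀ i, 2*k+2 ≤ i → ζ i = i := by
    intro i hi
    rw [hζ]
    exact if_pos hi
  have hζe : ∀ j, j ≤ k → ζ (2*j) = k - j := by
    intro j hj
    rw [hζ]
    simp only
    rw [if_neg (by omega), if_pos (by omega)]
    omega
  have hζo : ∀ j, j ≤ k → ζ (2*j+1) = k + 1 + j := by
    intro j hj
    rw [hζ]
    simp only
    rw [if_neg (by omega), if_neg (by omega)]
    omega
  have hζlow : ∀ i, i < 2*k+2 → ζ i < 2*k+2 := by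
    intro i hi
    rw [hζ]
    simp only
    split_ifs <;> omega
  have hζlt : ∀ i, i < 2*k+4 → ζ i < 2*k+4 := by
    intro i hi
    rw [hζ]
    simp only
    split_ifs <;> omega
  obtain ⟨b, hb⟩ := column_basis P3 hP3unit ζ hζlt
    (by
      intro i j hi hj h
      rw [hζ] at h
      simp only at h
      split_ifs at h <;> omega)
  let X : ℕ → (Fin (2*k+4) → ℤ) := fun i => if i = 2*k+2 then z3 else if i = 2*k+3 then C *ᵥ z3
    else (C ^ (ζ i + 1)) *ᵥ v
  have hX2 : X (2*k+2) = z3 := if_pos rfl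
  have hX3 : X (2*k+3) = C *ᵥ z3 := by
    change (if 2*k+3 = 2*k+2 then z3 else if 2*k+3 = 2*k+3 then C *ᵥ z3
      else (C ^ (ζ (2*k+3) + 1)) *ᵥ v) = _
    rw [if_neg (by omega), if_pos rfl]
  have hXlow : ∀ i, i < 2*k+2 → X i = (C ^ (ζ i + 1)) *ᵥ v := by
    intro i hi
    change (if i = 2*k+2 then z3 else if i = 2*k+3 then C *ᵥ z3
      else (C ^ (ζ i + 1)) *ᵥ v) = _
    rw [if_neg (by omega), if_neg (by omega)]
  have hbX : ∀ i : Fin (2*k+4), X i = b i := by
    intro i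
    rw [hb]
    have hi := i.isLt
    by_cases h : (i : ℕ) < 2*k+2
    · rw [hXlow _ h, hP3low _ _ (hζlow _ h)]
    · by_cases h' : (i : ℕ) = 2*k+2
      · have e : (⟨ζ i, hζlt i i.isLt⟩ : Fin (2*k+4)) = ⟨2*k+2, by omega⟩ := by
          apply Fin.ext
          simp only
          rw [hζl _ (by omega), h']
        rw [e, hP3z, h', hX2]
      · have h'' : (i : ℕ) = 2*k+3 := by omega
        have e : (⟨ζ i, hζlt i i.isLt⟩ : Fin (2*k+4)) = ⟨2*k+3, by omega⟩ := by
          apply Fin.ext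
          simp only
          rw [hζl _ (by omega), h'']
        rw [e, hP3C, h'', hX3]
  have hXe : ∀ j, j ≤ k → X (2*j) = (C ^ (k-j+1)) *ᵥ v := by
    intro j hj
    rw [hXlow _ (by omega), hζe j hj]
  have hXo : ∀ j, j ≤ k → X (2*j+1) = (C ^ (k+1+j+1)) *ᵥ v := by
    intro j hj
    rw [hXlow _ (by omega), hζo j hj]
  have hCpow : ∀ j, Matrix.toLin' C ((C ^ j) *ᵥ v) = (C ^ (j+1)) *ᵥ v := by
    intro j
    rw [Matrix.toLin'_apply, Matrix.mulVec_mulVec, pow_succ']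
  -- membership
  have hmem : C *ᵥ Y0 ∈ Submodule.span ℤ (X '' {i | i < 2*k}) := by
    have hpow' : ∀ j, 2 ≤ j → j ≤ 2*k+1 →
        (C ^ j) *ᵥ v ∈ Submodule.span ℤ (X '' {i | i < 2*k}) := by
      intro j hj1 hj2
      apply Submodule.subset_span
      by_cases h : j ≤ k+1
      · refine ⟨2*(k+1-j), by simp only [Set.mem_ofPred_eq]; omega, ?_⟩
        rw [hXe _ (by omega)]
        congr 2
        omega
      · refine ⟨2*(j-k-2)+1, by simp only [Set.mem_ofPred_eq]; omega, ?_⟩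
        rw [hXo _ (by omega)]
        congr 2
        omega
    have e : C *ᵥ Y0 = s • (∑ j ∈ range (2*k), c' (j+1) • ((C ^ (j+1+1)) *ᵥ v))
        + (s * γ * d) • ((C ^ (2*k+1)) *ᵥ v) := by
      have e0 : C *ᵥ (∑ j ∈ range (2*k), c' (j+1) • ((C ^ (j+1)) *ᵥ v))
          = ∑ j ∈ range (2*k), c' (j+1) • ((C ^ (j+1+1)) *ᵥ v) := by
        rw [← Matrix.toLin'_apply, map_sum]
        apply sum_congr rfl
        intro j _
        rw [map_smul, hCpow]
      rw [hY0, Matrix.mulVec_add, Matrix.mulVec_smul, Matrix.mulVec_smul, e0,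
        Matrix.mulVec_mulVec, ← pow_succ']
    rw [e]
    apply Submodule.add_mem
    · apply Submodule.smul_mem
      apply Submodule.sum_mem
      intro j hj
      have := mem_range.mp hj
      exact Submodule.smul_mem _ _ (hpow' _ (by omega) (by omega))
    · exact Submodule.smul_mem _ _ (hpow' _ (by omega) (by omega))
  obtain ⟨y, hy⟩ := mem_span_range_sum X (2*k) _ hmem
  obtain ⟨A, B, hA, hB, h⟩ := core_even_two k b (Matrix.toLin' C)
    (by rw [LinearMap.det_toLin', hC]) X hbX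
    (by
      have a0 := hXe 0 (by omega)
      have a1 := hXo 0 (by omega)
      simp only [mul_zero, zero_add, Nat.sub_zero, add_zero] at a0 a1
      rw [a0, a1, hCpow])
    (fun j hj => by
      have a0 := hXe (j+1) (by omega)
      rw [show 2*(j+1) = 2*j+2 by ring] at a0
      rw [a0, hXe j (by omega), hCpow]
      congr 2
      omega)
    (fun j hj => by
      have a0 := hXo (j+1) (by omega)
      rw [show 2*(j+1)+1 = 2*j+3 by ring] at a0
      rw [a0, hXo j (by omega), hCpow]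
      congr 2)
    (by rw [hX2, hX3, Matrix.toLin'_apply])
    γ y
    (by
      rw [← hy, hX3, hXe k le_rfl, Nat.sub_self, zero_add, pow_one, Matrix.toLin'_apply]
      conv_lhs => rw [hCz3, Matrix.mulVec_add, Matrix.mulVec_add, Matrix.mulVec_smul])
  exact units_of_maps C A B hA hB h

end Pool.H89.Comm
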