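import Mathlib
import Pool.Agent.H89.Comm.TwoEven

set_option autoImplicit false

namespace Pool.H89.Comm

open Finset Module Matrix

theorem two_vectors_all (n : ℕ) (hn : 3 ≤ n) (hn4 : n ≠ 4) (C : Matrix (Fin n) (Fin n) ℤ)
    (hC : C.det = 1) (v z : Fin n → ℤ)
    (h1 : IsUnit (Matrix.of fun i j : Fin n =>
      if (j : ℕ) + 1 < n then ((C ^ (j : ℕ)) *ᵥ v) i else z i).det)
    (h2 : IsUnit (Matrix.of fun i j : Fin n =>
      if (j : ℕ) + 2 < n then ((C ^ ((j : ℕ) + 1)) *ᵥ v) i
      else if (j : ℕ) + 2 = n then z i else (C *ᵥ z) i).det) :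
    ∃ A B : (Matrix (Fin n) (Fin n) ℤ)ˣ,
      ((A * B * A⁻¹ * B⁻¹ : (Matrix (Fin n) (Fin n) ℤ)ˣ) : Matrix (Fin n) (Fin n) ℤ) = C := by
  rcases Nat.even_or_odd n with hev | hodd
  · obtain ⟨m, hm⟩ := hev
    obtain ⟨k, rfl⟩ : ∃ k, n = 2*k+4 := ⟨m-2, by omega⟩
    apply two_vectors_even k (by omega) C hC v z
    · convert h1 using 2
      ext i j
      rw [Matrix.of_apply, Matrix.of_apply]
      congr 1
      apply propext
      constructor <;> intro h <;> omega
    · convert h2 using 2
      ext i j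
      rw [Matrix.of_apply, Matrix.of_apply]
      congr 1
      · apply propext
        constructor <;> intro h <;> omega
      · congr 1
        apply propext
        constructor <;> intro h <;> omega
  · exact two_vectors_odd n hn hodd C hC v z h1 h2

end Pool.H89.Comm
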